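import Mathlib
import Pool.Graph.R_seed8.Y131.KS.Chain

/-!
# Kalai-Sarkaria with an intersection form: definitions and statements of the parts

`L` a complex with vertices `0, ..., n-1`. The obstruction of the deleted join is allowed to be a sum
of transfers of products of cocycles (as for embeddings in closed manifolds).
-/

set_option autoImplicit false

namespace Pool.Agent.H37.KR

open Finset MvPolynomial Pool.Agent.W555.KS Pool.Agent.Y131.KS

/-- value of the cochain `c` on the chain `Z`, ordered pairs of disjoint sets of total size `D` -/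
def pr2 {n : ℕ} (D : ℕ) (c Z : Finset (Fin n) → Finset (Fin n) → ZMod 2) : ZMod 2 :=
  ∑ σ, ∑ τ, if Disjoint σ τ ∧ σ.card + τ.card = D then c σ τ * Z σ τ else 0

/-- the obstruction in degree `D` of the deleted join of `L` is the transfer of `c` -/
def TrV {n : ℕ} (L : Finset (Finset (Fin n))) (D : ℕ)
    (c : Finset (Fin n) → Finset (Fin n) → ZMod 2) : Prop :=
  ∀ Z : Finset (Fin n) → Finset (Fin n) → ZMod 2,
    (∀ σ τ, Z σ τ = Z τ σ) →
    (∀ σ τ, Z σ τ ≠ 0 → σ ∈ L ∧ τ ∈ L) →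
    (∀ ρ τ : Finset (Fin n), Disjoint ρ τ → ρ.card + τ.card + 1 = D →
      ∑ v ∈ (ρ ∪ τ)ᶜ, (Z (insert v ρ) τ + Z ρ (insert v τ)) = 0) →
    ∑ U ∈ powersetCard D univ, Z (evenPart U) (oddPart U) = pr2 D c Z

/-- `c` is a cocycle on the deleted join of `L` -/
def Clo {n : ℕ} (L : Finset (Finset (Fin n))) (D : ℕ)
    (c : Finset (Fin n) → Finset (Fin n) → ZMod 2) : Prop :=
  ∀ σ ∈ L, ∀ τ ∈ L, Disjoint σ τ → σ.card + τ.card = D + 1 →
    ∑ v ∈ σ, c (σ.erase v) τ + ∑ v ∈ τ, c σ (τ.erase v) = 0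

/-- the cochain of the cone, with the new vertex in the first factor -/
def cn {n : ℕ} (c : Finset (Fin n) → Finset (Fin n) → ZMod 2) :
    Finset (Fin (n + 1)) → Finset (Fin (n + 1)) → ZMod 2 :=
  fun σ τ => if Fin.last n ∈ σ then c (univ.filter (fun i : Fin n => i.castSucc ∈ σ))
    (univ.filter (fun i : Fin n => i.castSucc ∈ τ)) else 0

/-- PART B (adapt `Y131.KS.cone2`, `Cone.lean`) -/
def StB : Prop := ∀ (n D : ℕ) (L : Finset (Finset (Fin n)))
  (c : Finset (Fin n) → Finset (Fin n) → ZMod 2), IsCx L → TrV L D c → Clo L D c →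
  TrV (coneCx L) (D + 1) (cn c) ∧ Clo (coneCx L) (D + 1) (cn c)

/-- PART D (adapt `W472.KS.spec` / `Y131.KS.spec`): the vector space spanned by the monomials of `J`
is added -/
def StD : Prop := ∀ (n d r : ℕ) (L : Finset (Finset (Fin n))) (J : Finset (Fin n →₀ ℕ)),
  (∀ m ∈ J, m.degree = r) → d < 2 * r →
  (∀ p : MvPolynomial (Fin n) (Kf (d + 1) n), p.IsHomogeneous r →
    p ∈ srI (Kf (d + 1) n) L ⊔
      Ideal.span (Set.range (fun i : Fin d => lf (gen (d + 1) n i.castSucc))) ⊔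
      Ideal.span {lf (gen (d + 1) n (Fin.last d)) ^ (2 * r - d)} ⊔
      Ideal.span ((fun m => monomial m (1 : Kf (d + 1) n)) '' (J : Set (Fin n →₀ ℕ)))) →
  ∃ F : MvPolynomial (Fin (d + 1) × Fin n) ℤ,
    MvPolynomial.map (Int.castRingHom (ZMod 2)) F ≠ 0 ∧
    ∀ (k : Type) [Field k] (c : Fin (d + 1) × Fin n → k), aeval c F ≠ 0 →
      ∀ p : MvPolynomial (Fin n) k, p.IsHomogeneous r →
        p ∈ srI k L ⊔
          Ideal.span (Set.range (fun i : Fin d => lf (fun v => c (i.castSucc, v)))) ⊔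
          Ideal.span {lf (fun v => c (Fin.last d, v)) ^ (2 * r - d)} ⊔
          Ideal.span ((fun m => monomial m (1 : k)) '' (J : Set (Fin n →₀ ℕ)))

/-- PART E1: in each degree the initial ideal is the same for generic `g`. (The monomial `m` is not
in the initial ideal iff `subst g (X^m)` is not in `srI + span of subst g (X^m')`, `m' < m`, of the
same degree: ranks of families of vectors depending polynomially on `g`; the rank is maximal where
a minor is not zero.) -/
def StE1 : Prop := ∀ (k : Type) [Field k] [Infinite k] (n r : ℕ) (L : Finset (Finset (Fin n))),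
  ∃ F : MvPolynomial (Fin n × Fin n) k, F ≠ 0 ∧ ∀ g : Fin n × Fin n → k,
    (Matrix.of (fun i j => g (i, j))).det ≠ 0 → eval g F ≠ 0 →
    ∀ m : Fin n →₀ ℕ, m.degree = r → (m ∈ inSet (coordI g (srI k L)) ↔ m ∈ ginSet (srI k L))

/-- PART E2 (adapt `Y131.KS.g1`): at most `J.card` monomials of degree `r` in the first `n - d`
variables, with exponent of `x_(n-d-1)` less than `2 r - d`, are not in the initial ideal -/
def StE2 : Prop := ∀ (k : Type) [Field k] (n d r : ℕ) (hdn : d < n) (L : Finset (Finset (Fin n)))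
  (J : Finset (Fin n →₀ ℕ)) (g : Fin n × Fin n → k), (∀ m ∈ J, m.degree = r) → d < 2 * r →
  (Matrix.of (fun i j => g (i, j))).det ≠ 0 →
  (∀ p : MvPolynomial (Fin n) k, p.IsHomogeneous r →
    p ∈ srI k L ⊔
      Ideal.span (Set.range (fun i : Fin d => lf (fun v => g (⟨n - 1 - i, by omega⟩, v)))) ⊔
      Ideal.span {lf (fun v => g (⟨n - 1 - d, by omega⟩, v)) ^ (2 * r - d)} ⊔
      Ideal.span ((fun m => monomial m (1 : k)) '' (J : Set (Fin n →₀ ℕ)))) →
  {m : Fin n →₀ ℕ | m.degree = r ∧ (∀ i : Fin n, n ≤ (i : ℕ) + d → m i = 0) ∧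
    m ⟨n - 1 - d, by omega⟩ < 2 * r - d ∧ m ∉ inSet (coordI g (srI k L))}.ncard ≤ J.card

end Pool.Agent.H37.KR
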