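import Pool.Agent.H37.KR.Defs

/-!
# The cycle identity with products of cocycles
-/

set_option autoImplicit false

namespace Pool.Agent.H37.KR

open Finset MvPolynomial Pool.Agent.W555.KS Pool.Agent.Y131.KS Pool.Agent.W646.KS
open Pool.Agent.W500.KS (lin d0 d0_apply coeff_top_lin sum_sq_zero)

/-- the embedding of `F_2` in a field of characteristic 2 -/
noncomputable abbrev κ (k : Type) [Field k] [CharP k 2] : ZMod 2 →+* k :=
  ZMod.castHom (dvd_refl 2) k

theorem zmod2 (c : ZMod 2) : c = 0 ∨ c = 1 := by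
  revert c
  decide

theorem trk {n : ℕ} {L : Finset (Finset (Fin n))} {D : ℕ}
    {c : Finset (Fin n) → Finset (Fin n) → ZMod 2} (h : TrV L D c)
    (k : Type) [Field k] [CharP k 2] (Z : Finset (Fin n) → Finset (Fin n) → k)
    (h1 : ∀ σ τ, Z σ τ = Z τ σ) (h2 : ∀ σ τ, Z σ τ ≠ 0 → σ ∈ L ∧ τ ∈ L)
    (h3 : ∀ ρ τ : Finset (Fin n), Disjoint ρ τ → ρ.card + τ.card + 1 = D →
      ∑ v ∈ (ρ ∪ τ)ᶜ, (Z (insert v ρ) τ + Z ρ (insert v τ)) = 0) :
    ∑ U ∈ powersetCard D univ, Z (evenPart U) (oddPart U) =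
      ∑ σ, ∑ τ, if Disjoint σ τ ∧ σ.card + τ.card = D then κ k (c σ τ) * Z σ τ else 0 := by
  let _ : Algebra (ZMod 2) k := ZMod.algebra k 2
  rw [← sub_eq_zero, ← Module.forall_dual_apply_eq_zero_iff (ZMod 2)]
  intro φ
  have e := h (fun σ τ => φ (Z σ τ)) (fun σ τ => by rw [h1]) ?_ ?_
  · rw [map_sub, map_sum, map_sum, e, sub_eq_zero]
    unfold pr2
    refine Finset.sum_congr rfl fun σ _ => ?_
    rw [map_sum]
    refine Finset.sum_congr rfl fun τ _ => ?_
    split_ifs with hc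
    · rcases zmod2 (c σ τ) with h0 | h0
      · rw [h0, map_zero, zero_mul, zero_mul, map_zero]
      · rw [h0, map_one, one_mul, one_mul]
    · rw [map_zero]
  · intro σ τ h
    refine h2 σ τ ?_
    intro h'
    rw [h', map_zero] at h
    exact h rfl
  · intro ρ τ hd hc
    have := congrArg φ (h3 ρ τ hd hc)
    rw [map_sum, map_zero] at this
    simpa only [map_add] using this

section

variable {k R : Type} [Field k] [CharP k 2] [CommRing R] [Algebra k R] {n d : ℕ}

theorem t1r (hexp : StExp) (g : ℕ) {L : Finset (Finset (Fin n))}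
    {c : Finset (Fin n) → Finset (Fin n) → ZMod 2} (hTr : TrV L (d + 1) c)
    (a : Fin (d + 1) → Fin n → k) (x : Fin n → R) (M : R →ₗ[k] k) (ω : R)
    (hface : ∀ σ, σ ∉ L → ∏ v ∈ σ, x v = 0)
    (ha : ∀ i : Fin d, ∑ v, a i.castSucc v • x v = 0)
    (hω : ω = ∑ v, a (Fin.last d) v • x v)
    (hdg : d + 1 ≤ 2 * g) (hpow : ω ^ (2 * g - d) = 0) :
    ∑ U ∈ powersetCard (d + 1) univ,
      bra a U * M (ω ^ (g - (evenPart U).card) * ∏ v ∈ evenPart U, x v) *
        M (ω ^ (g - (oddPart U).card) * ∏ v ∈ oddPart U, x v) =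
    ∑ σ, ∑ τ, if Disjoint σ τ ∧ σ.card + τ.card = d + 1 then
      κ k (c σ τ) * Zc g a x M ω σ τ else 0 := by
  have h2 : (2 : k) = 0 := CharP.cast_eq_zero k 2
  have hZ := trk hTr k (Zc g a x M ω) (Zc_symm g a x M ω) ?_ ?_
  · rw [← hZ]
    refine sum_congr rfl fun U hU => ?_
    rw [mem_powersetCard] at hU
    have he := evenPart_card U
    have ho := oddPart_card U
    have hdis := even_odd_disj U
    have hun := even_odd_union U
    have hcard : (evenPart U).card + (oddPart U).card = d + 1 := by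
      rw [← card_union_of_disjoint hdis, hun, hU.2]
    unfold Zc
    rw [hU.2] at he ho
    rw [if_pos ⟨hdis, hcard, by omega, by omega⟩, hun]
    rfl
  · intro σ τ hne
    unfold Zc at hne
    split_ifs at hne with hc
    · constructor
      · by_contra hσ
        apply hne
        unfold mv
        rw [hface σ hσ]
        simp
      · by_contra hτ
        apply hne
        unfold mv
        rw [hface τ hτ]
        simp
    · exact absurd rfl hne
  · intro ρ τ hdis hc
    have hc' : ρ.card + τ.card = d := by omega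
    rw [sum_add_distrib]
    have e1 := half_sum hexp g a x M ω ha hω ρ τ hdis hc'
    have e2 : ∑ v ∈ (ρ ∪ τ)ᶜ, Zc g a x M ω ρ (insert v τ) =
        if τ.card + 1 ≤ g ∧ ρ.card ≤ g then
          bra (fun i : Fin d => a i.castSucc) (ρ ∪ τ) * mv g x M ω ρ * mv g x M ω τ else 0 := by
      have h := half_sum hexp g a x M ω ha hω τ ρ hdis.symm (by omega)
      rw [union_comm τ ρ] at h
      rw [sum_congr rfl (fun v _ => Zc_symm g a x M ω ρ (insert v τ)), h]
      split_ifs
      · ring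
      · rfl
    rw [e1, e2]
    by_cases hA : ρ.card + 1 ≤ g
    · by_cases hB : τ.card + 1 ≤ g
      · rw [if_pos ⟨hA, by omega⟩, if_pos ⟨hB, by omega⟩, ← two_mul, h2, zero_mul]
      · have hn : ¬ (τ.card + 1 ≤ g ∧ ρ.card ≤ g) := fun h => hB h.1
        rw [if_neg hn, add_zero]
        split_ifs with h
        · -- |τ| = g, the exponent of `ρ` is `2 g - d`
          have h3 : g - ρ.card = 2 * g - d := by omega
          have h4 : mv g x M ω ρ = 0 := by
            unfold mv
            rw [h3, hpow, zero_mul, map_zero]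
          rw [h4]
          ring
        · rfl
    · have hn : ¬ (ρ.card + 1 ≤ g ∧ τ.card ≤ g) := fun h => hA h.1
      rw [if_neg hn, zero_add]
      split_ifs with h
      · have h3 : g - τ.card = 2 * g - d := by omega
        have h4 : mv g x M ω τ = 0 := by
          unfold mv
          rw [h3, hpow, zero_mul, map_zero]
        rw [h4]
        ring
      · rfl

/-! ### products -/

/-- squarefree monomials without the last variable have coefficient zero -/
def Good (B : MvPolynomial (Fin (d + 1)) k) : Prop :=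
  ∀ μ : Fin (d + 1) →₀ ℕ, (∀ i, μ i ≤ 1) → μ (Fin.last d) = 0 → coeff μ B = 0

omit [CharP k 2] in
theorem good_mul {A B : MvPolynomial (Fin (d + 1)) k} (hA : Good A) (hB : Good B) :
    coeff (d0 (d + 1)) (A * B) = 0 := by
  classical
  rw [coeff_mul]
  refine Finset.sum_eq_zero fun p hp => ?_
  rw [HasAntidiagonal.mem_antidiagonal] at hp
  have h : ∀ i, p.1 i + p.2 i = 1 := fun i => by
    have := DFunLike.congr_fun hp i
    rw [Finsupp.add_apply, d0_apply] at this
    exact this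
  have hl := h (Fin.last d)
  rcases Nat.eq_zero_or_pos (p.1 (Fin.last d)) with h0 | h0
  · rw [hA p.1 (fun i => by have := h i; omega) h0, zero_mul]
  · rw [hB p.2 (fun i => by have := h i; omega) (by omega), mul_zero]

omit [CharP k 2] in
theorem sf_J {z : MvPolynomial (Fin (d + 1)) k} (hz : z ∈ Pool.Agent.W500.KS.J (d + 1) k)
    (μ : Fin (d + 1) →₀ ℕ) (hμ : ∀ i, μ i ≤ 1) : coeff μ z = 0 := by
  classical
  obtain ⟨c, hc⟩ := Ideal.mem_span_range_iff_exists_fun.mp hz
  rw [← hc, coeff_sum]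
  refine Finset.sum_eq_zero (fun i _ => ?_)
  rw [← mul_assoc, coeff_mul_X', coeff_mul_X']
  split_ifs with h1 h2
  · exfalso
    rw [Finsupp.mem_support_iff, Finsupp.tsub_apply, Finsupp.single_eq_same] at h2
    have := hμ i
    omega
  · rfl
  · rfl

/-- the polynomial of a cochain -/
noncomputable def Bf (g : ℕ) (a : Fin (d + 1) → Fin n → k) (x : Fin n → R) (M : R →ₗ[k] k) (ω : R)
    (γ : Finset (Fin n) → ZMod 2) (s : ℕ) : MvPolynomial (Fin (d + 1)) k :=
  ∑ σ ∈ powersetCard s (univ : Finset (Fin n)), C (κ k (γ σ) * mv g x M ω σ) * ∏ v ∈ σ, lin a v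

theorem lin_sq (a : Fin (d + 1) → Fin n → k) (v : Fin n) :
    lin a v * lin a v ∈ Pool.Agent.W500.KS.J (d + 1) k := by
  classical
  rw [← Ideal.Quotient.eq_zero_iff_mem, map_mul]
  unfold lin
  rw [map_sum]
  simp only [map_mul]
  refine sum_sq_zero ?_ univ _ _ (fun i => ?_)
  · exact Pool.Agent.W500.KS.two_N (CharP.cast_eq_zero k 2)
  · exact Pool.Agent.W500.KS.mkX_sq i

theorem lin_nd (a : Fin (d + 1) → Fin n → k) {σ τ : Finset (Fin n)} (h : ¬ Disjoint σ τ) :
    (∏ v ∈ σ, lin a v) * ∏ v ∈ τ, lin a v ∈ Pool.Agent.W500.KS.J (d + 1) k := by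
  classical
  rw [Finset.not_disjoint_iff] at h
  obtain ⟨v, hv1, hv2⟩ := h
  rw [← Finset.mul_prod_erase _ _ hv1, ← Finset.mul_prod_erase _ _ hv2]
  have e : (lin a v * ∏ x ∈ σ.erase v, lin a x) * (lin a v * ∏ x ∈ τ.erase v, lin a x) =
      ((∏ x ∈ σ.erase v, lin a x) * ∏ x ∈ τ.erase v, lin a x) * (lin a v * lin a v) := by ring
  rw [e]
  exact Ideal.mul_mem_left _ _ (lin_sq a v)

/-- the value of a product of cochains on the cycle -/
theorem pair_eq (g : ℕ) (a : Fin (d + 1) → Fin n → k) (x : Fin n → R) (M : R →ₗ[k] k) (ω : R)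
    (β α : Finset (Fin n) → ZMod 2) (b s : ℕ) (hbs : b + s = d + 1) (hb : b ≤ g) (hs : s ≤ g)
    (hβ : ∀ σ, σ.card ≠ b → β σ = 0) (hα : ∀ σ, σ.card ≠ s → α σ = 0) :
    (∑ σ, ∑ τ, if Disjoint σ τ ∧ σ.card + τ.card = d + 1 then
      κ k (β σ * α τ) * Zc g a x M ω σ τ else 0) =
    coeff (d0 (d + 1)) (Bf g a x M ω β b * Bf g a x M ω α s) := by
  classical
  unfold Bf
  rw [Finset.sum_mul_sum, coeff_sum]
  have e1 : ∀ σ ∈ (univ : Finset (Finset (Fin n))), σ ∉ powersetCard b univ →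
      (∑ τ, if Disjoint σ τ ∧ σ.card + τ.card = d + 1 then
        κ k (β σ * α τ) * Zc g a x M ω σ τ else 0) = 0 := by
    intro σ _ hσ
    refine Finset.sum_eq_zero fun τ _ => ?_
    rw [hβ σ (fun h => hσ (mem_powersetCard.2 ⟨subset_univ _, h⟩)), zero_mul, map_zero, zero_mul,
      ite_self]
  rw [← Finset.sum_subset (Finset.subset_univ (powersetCard b univ)) e1]
  refine Finset.sum_congr rfl fun σ hσ => ?_
  rw [coeff_sum]
  have e2 : ∀ τ ∈ (univ : Finset (Finset (Fin n))), τ ∉ powersetCard s univ →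
      (if Disjoint σ τ ∧ σ.card + τ.card = d + 1 then
        κ k (β σ * α τ) * Zc g a x M ω σ τ else 0) = 0 := by
    intro τ _ hτ
    rw [hα τ (fun h => hτ (mem_powersetCard.2 ⟨subset_univ _, h⟩)), mul_zero, map_zero, zero_mul,
      ite_self]
  rw [← Finset.sum_subset (Finset.subset_univ (powersetCard s univ)) e2]
  refine Finset.sum_congr rfl fun τ hτ => ?_
  rw [mem_powersetCard] at hσ hτ
  have e3 : C (κ k (β σ) * mv g x M ω σ) * (∏ v ∈ σ, lin a v) *
      (C (κ k (α τ) * mv g x M ω τ) * ∏ v ∈ τ, lin a v) =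
      C (κ k (β σ) * mv g x M ω σ * (κ k (α τ) * mv g x M ω τ)) *
        ((∏ v ∈ σ, lin a v) * ∏ v ∈ τ, lin a v) := by
    rw [C_mul (a := κ k (β σ) * mv g x M ω σ)]
    ring
  rw [e3, coeff_C_mul]
  by_cases hd : Disjoint σ τ
  · rw [if_pos ⟨hd, by omega⟩, ← prod_union hd, coeff_top_lin]
    unfold Zc
    rw [if_pos ⟨hd, by omega, by omega, by omega⟩, map_mul]
    ring
  · rw [if_neg (fun h => hd h.1), sf_J (lin_nd a hd) _ (fun i => by rw [d0_apply]), mul_zero]

end

end Pool.Agent.H37.KR
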