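import Pool.Agent.H37.KR.Core

/-!
# Vanishing of the products on the cycle, and the direct forms of T1E, T1O
-/

set_option autoImplicit false

namespace Pool.Agent.H37.KR

open Finset MvPolynomial Pool.Agent.W555.KS Pool.Agent.Y131.KS Pool.Agent.W646.KS
open Pool.Agent.W500.KS (lin d0 d0_apply coeff_top_lin sum_sq_zero)

/-- `γ` is a cochain on sets of size `s`, and a cocycle of `L` -/
def Coc {n : ℕ} (L : Finset (Finset (Fin n))) (s : ℕ) (γ : Finset (Fin n) → ZMod 2) : Prop :=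
  (∀ σ, σ.card ≠ s → γ σ = 0) ∧ ∀ ρ ∈ L, ρ.card = s + 1 → ∑ v ∈ ρ, γ (ρ.erase v) = 0

theorem sum_erase {A : Type*} [AddCommMonoid A] {n : ℕ} (s : ℕ) (G : Finset (Fin n) → Fin n → A) :
    ∑ τ ∈ powersetCard (s + 1) univ, ∑ v ∈ τ, G (τ.erase v) v =
      ∑ σ ∈ powersetCard s univ, ∑ v ∈ σᶜ, G σ v := by
  rw [Finset.sum_sigma', Finset.sum_sigma']
  refine Finset.sum_bij' (fun p _ => (⟨p.1.erase p.2, p.2⟩ : (_ : Finset (Fin n)) × Fin n))
    (fun p _ => (⟨insert p.2 p.1, p.2⟩ : (_ : Finset (Fin n)) × Fin n)) ?_ ?_ ?_ ?_ ?_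
  · rintro ⟨τ, v⟩ h
    simp only [mem_sigma, mem_powersetCard, subset_univ, true_and, mem_compl] at h ⊢
    refine ⟨?_, notMem_erase _ _⟩
    rw [card_erase_of_mem h.2, h.1]
    rfl
  · rintro ⟨σ, v⟩ h
    simp only [mem_sigma, mem_powersetCard, subset_univ, true_and, mem_compl] at h ⊢
    refine ⟨?_, mem_insert_self _ _⟩
    rw [card_insert_of_notMem h.2, h.1]
  · rintro ⟨τ, v⟩ h
    simp only [mem_sigma, mem_powersetCard, subset_univ, true_and, mem_compl] at h
    simp only [insert_erase h.2]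
  · rintro ⟨σ, v⟩ h
    simp only [mem_sigma, mem_powersetCard, subset_univ, true_and, mem_compl] at h
    simp only [erase_insert h.2]
  · rintro ⟨τ, v⟩ h
    rfl

section

variable {k R : Type} [Field k] [CharP k 2] [CommRing R] [Algebra k R] {n d : ℕ}

theorem good_coc (g s : ℕ) (hs : s < g) {L : Finset (Finset (Fin n))}
    (γ : Finset (Fin n) → ZMod 2) (hγ : Coc L s γ)
    (a : Fin (d + 1) → Fin n → k) (x : Fin n → R) (M : R →ₗ[k] k) (ω : R)
    (hface : ∀ σ, σ ∉ L → ∏ v ∈ σ, x v = 0)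
    (ha : ∀ i : Fin d, ∑ v, a i.castSucc v • x v = 0)
    (hω : ω = ∑ v, a (Fin.last d) v • x v) : Good (Bf g a x M ω γ s) := by
  classical
  let F : Finset (Fin n) → Fin n → MvPolynomial (Fin (d + 1)) k := fun σ v =>
    C (κ k (γ σ) * M (ω ^ (g - (s + 1)) * (x v * ∏ w ∈ σ, x w))) * (lin a v * ∏ w ∈ σ, lin a w)
  -- the sum over pairs is zero
  have hT : ∑ σ ∈ powersetCard s univ, ∑ v ∈ σᶜ, F σ v = 0 := by
    rw [← sum_erase]
    refine Finset.sum_eq_zero fun τ hτ => ?_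
    rw [mem_powersetCard] at hτ
    have h1 : ∀ v ∈ τ, F (τ.erase v) v = C (κ k (γ (τ.erase v))) *
        (C (M (ω ^ (g - (s + 1)) * ∏ w ∈ τ, x w)) * ∏ w ∈ τ, lin a w) := by
      intro v hv
      simp only [F]
      rw [mul_prod_erase _ _ hv, mul_prod_erase _ _ hv, C_mul, mul_assoc]
    rw [Finset.sum_congr rfl h1, ← Finset.sum_mul, ← map_sum, ← map_sum]
    by_cases hL : τ ∈ L
    · rw [hγ.2 τ hL hτ.2, map_zero, map_zero, zero_mul]
    · rw [hface τ hL, mul_zero, map_zero, map_zero, zero_mul, mul_zero]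
  have hX : X (Fin.last d) * Bf g a x M ω γ s =
      ∑ σ ∈ powersetCard s univ, ∑ v, F σ v := by
    unfold Bf
    rw [Finset.mul_sum]
    refine Finset.sum_congr rfl fun σ hσ => ?_
    rw [mem_powersetCard] at hσ
    have hrow : ∀ i : Fin (d + 1), ∑ v, a i v * M (ω ^ (g - (s + 1)) * (x v * ∏ w ∈ σ, x w)) =
        M (ω ^ (g - (s + 1)) * ((∑ v, a i v • x v) * ∏ w ∈ σ, x w)) := by
      intro i
      rw [sum_mul, mul_sum, map_sum]
      refine sum_congr rfl fun v _ => ?_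
      rw [smul_mul_assoc, mul_smul_comm, map_smul, smul_eq_mul]
    have h1 : ∑ v, F σ v = C (κ k (γ σ)) * (∏ w ∈ σ, lin a w) *
        ∑ i, X i * C (∑ v, a i v * M (ω ^ (g - (s + 1)) * (x v * ∏ w ∈ σ, x w))) := by
      have h2 : ∀ v, F σ v = C (κ k (γ σ)) * (∏ w ∈ σ, lin a w) *
          (C (M (ω ^ (g - (s + 1)) * (x v * ∏ w ∈ σ, x w))) * lin a v) := by
        intro v
        simp only [F]
        rw [C_mul]
        ring
      rw [Finset.sum_congr rfl fun v _ => h2 v, ← Finset.mul_sum]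
      congr 1
      unfold lin
      have h3 : ∀ v, C (M (ω ^ (g - (s + 1)) * (x v * ∏ w ∈ σ, x w))) *
          ∑ i, C (a i v) * (X i : MvPolynomial (Fin (d + 1)) k) =
          ∑ i, X i * C (a i v * M (ω ^ (g - (s + 1)) * (x v * ∏ w ∈ σ, x w))) := by
        intro v
        rw [Finset.mul_sum]
        refine Finset.sum_congr rfl fun i _ => ?_
        rw [C_mul]
        ring
      rw [Finset.sum_congr rfl fun v _ => h3 v, Finset.sum_comm]
      refine Finset.sum_congr rfl fun i _ => ?_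
      rw [← Finset.mul_sum, map_sum]
    rw [h1, Fin.sum_univ_castSucc]
    have h4 : ∑ i : Fin d, (X i.castSucc : MvPolynomial (Fin (d + 1)) k) *
        C (∑ v, a i.castSucc v * M (ω ^ (g - (s + 1)) * (x v * ∏ w ∈ σ, x w))) = 0 := by
      refine Finset.sum_eq_zero fun i _ => ?_
      rw [hrow, ha i, zero_mul, mul_zero, map_zero, map_zero, mul_zero]
    rw [h4, zero_add, hrow, ← hω]
    have h5 : ω ^ (g - (s + 1)) * (ω * ∏ w ∈ σ, x w) = ω ^ (g - σ.card) * ∏ w ∈ σ, x w := by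
      rw [← mul_assoc, ← pow_succ, hσ.2]
      congr 2
      omega
    rw [h5]
    unfold mv
    rw [C_mul]
    ring
  have hJ : X (Fin.last d) * Bf g a x M ω γ s ∈ Pool.Agent.W500.KS.J (d + 1) k := by
    rw [hX]
    have h1 : ∑ σ ∈ powersetCard s (univ : Finset (Fin n)), ∑ v, F σ v =
        ∑ σ ∈ powersetCard s univ, ∑ v ∈ σ, F σ v := by
      have h2 : ∀ σ : Finset (Fin n), ∑ v, F σ v = ∑ v ∈ σ, F σ v + ∑ v ∈ σᶜ, F σ v :=
        fun σ => (Finset.sum_add_sum_compl σ _).symm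
      rw [Finset.sum_congr rfl fun σ _ => h2 σ, Finset.sum_add_distrib, hT, add_zero]
    rw [h1]
    refine Ideal.sum_mem _ fun σ _ => Ideal.sum_mem _ fun v hv => ?_
    simp only [F]
    refine Ideal.mul_mem_left _ _ ?_
    rw [← mul_prod_erase _ _ hv, ← mul_assoc]
    exact Ideal.mul_mem_right _ _ (lin_sq a v)
  intro μ hμ hl
  have h1 := sf_J hJ (Finsupp.single (Fin.last d) 1 + μ) (fun i => by
    rw [Finsupp.add_apply, Finsupp.single_apply]
    split_ifs with h
    · rw [← h, hl]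
    · have := hμ i
      omega)
  rwa [coeff_X_mul] at h1

theorem good_kill (g : ℕ) (γ : Finset (Fin n) → ZMod 2)
    (a : Fin (d + 1) → Fin n → k) (x : Fin n → R) (M : R →ₗ[k] k) (ω : R)
    (hM : ∀ μ : Fin (d + 1) →₀ ℕ, (∀ i, μ i ≤ 1) → μ (Fin.last d) = 0 →
      M (∑ σ ∈ powersetCard g (univ : Finset (Fin n)),
        (κ k (γ σ) * coeff μ (∏ v ∈ σ, lin a v)) • ∏ v ∈ σ, x v) = 0) :
    Good (Bf g a x M ω γ g) := by
  intro μ hμ hl
  rw [← hM μ hμ hl]
  unfold Bf
  rw [coeff_sum, map_sum]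
  refine Finset.sum_congr rfl fun σ hσ => ?_
  rw [mem_powersetCard] at hσ
  rw [coeff_C_mul, map_smul, smul_eq_mul]
  unfold mv
  rw [hσ.2, Nat.sub_self, pow_zero, one_mul]
  ring

/-- the pairing vanishes -/
theorem pair_zero (g : ℕ) (a : Fin (d + 1) → Fin n → k) (x : Fin n → R) (M : R →ₗ[k] k) (ω : R)
    (β α : Finset (Fin n) → ZMod 2) (b s : ℕ) (hbs : b + s = d + 1)
    (hβ : ∀ σ, σ.card ≠ b → β σ = 0) (hα : ∀ σ, σ.card ≠ s → α σ = 0)
    (h1 : g < b ∨ Good (Bf g a x M ω β b)) (h2 : g < s ∨ Good (Bf g a x M ω α s)) :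
    (∑ σ, ∑ τ, if Disjoint σ τ ∧ σ.card + τ.card = d + 1 then
      κ k (β σ * α τ) * Zc g a x M ω σ τ else 0) = 0 := by
  by_cases hb : b ≤ g
  · by_cases hs : s ≤ g
    · rw [pair_eq g a x M ω β α b s hbs hb hs hβ hα]
      exact good_mul (h1.resolve_left (by omega)) (h2.resolve_left (by omega))
    · refine Finset.sum_eq_zero fun σ _ => Finset.sum_eq_zero fun τ _ => ?_
      split_ifs with h
      · by_cases hτ : τ.card = s
        · have : Zc g a x M ω σ τ = 0 := by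
            unfold Zc
            rw [if_neg]
            rintro ⟨-, -, -, h4⟩
            omega
          rw [this, mul_zero]
        · rw [hα τ hτ, mul_zero, map_zero, zero_mul]
      · rfl
  · refine Finset.sum_eq_zero fun σ _ => Finset.sum_eq_zero fun τ _ => ?_
    split_ifs with h
    · by_cases hσ : σ.card = b
      · have : Zc g a x M ω σ τ = 0 := by
          unfold Zc
          rw [if_neg]
          rintro ⟨-, -, h3, -⟩
          omega
        rw [this, mul_zero]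
      · rw [hβ σ hσ, zero_mul, map_zero, zero_mul]
    · rfl

/-! ### the direct forms of T1E, T1O -/

open W349.KS (card_evenPart card_oddPart)

theorem t1e_dir (h2 : StAlg) (q s : ℕ) (a : Fin (d + 1) → Fin n → k) (x : Fin n → R)
    (M : R →ₗ[k] k) (ω : R) (ha : ∀ i : Fin d, ∑ v, a i.castSucc v • x v = 0) (hd : d + 1 = 2 * q)
    (e1 : ∑ U ∈ powersetCard (d + 1) univ,
      bra a U * M (ω ^ (q + s - (evenPart U).card) * ∏ v ∈ evenPart U, x v) *
        M (ω ^ (q + s - (oddPart U).card) * ∏ v ∈ oddPart U, x v) = 0) :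
    ∑ h ∈ (univ : Finset (Fin (d + 1) → Fin n)).filter EvenFun,
      (∏ i, a i (h i)) * M (ω ^ s * halfMon x h) ^ 2 = 0 := by
  have alg : ∀ (D : ℕ) (_ : D = 2 * q) (a : Fin D → Fin n → k) (x : Fin n → R) (M : R →ₗ[k] k),
      (∀ i : Fin D, (i : ℕ) + 1 < D → ∑ v, a i v • x v = 0) →
      ∑ U ∈ powersetCard D univ,
          bra a U * M (∏ v ∈ evenPart U, x v) * M (∏ v ∈ oddPart U, x v)
        = ∑ h ∈ (univ : Finset (Fin D → Fin n)).filter EvenFun,
            (∏ i, a i (h i)) * M (halfMon x h) ^ 2 := by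
    intro D hD
    subst hD
    exact h2 k R n q
  have e2 := alg (d + 1) hd a x (M.comp (LinearMap.mulLeft k (ω ^ s))) (by
    intro i hi
    have h3 : i = (⟨i, by omega⟩ : Fin d).castSucc := by
      ext
      rfl
    rw [h3]
    exact ha _)
  simp only [LinearMap.comp_apply, LinearMap.mulLeft_apply] at e2
  rw [← e2, ← e1]
  refine Finset.sum_congr rfl fun U hU => ?_
  rw [Finset.mem_powersetCard] at hU
  rw [card_evenPart, card_oddPart, hU.2, show q + s - (d + 1 + 1) / 2 = s by omega,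
    show q + s - (d + 1) / 2 = s by omega]

theorem t1o_dir (h2 : StAlgO) (q s : ℕ) (hs : 1 ≤ s) (a : Fin (2 * q + 1) → Fin n → k)
    (x : Fin n → R)
    (M : R →ₗ[k] k) (ω : R) (ha : ∀ i : Fin (2 * q), ∑ v, a i.castSucc v • x v = 0)
    (hω : ω = ∑ v, a (Fin.last (2 * q)) v • x v)
    (e1 : ∑ U ∈ powersetCard (2 * q + 1) univ,
      bra a U * M (ω ^ (q + s - (evenPart U).card) * ∏ v ∈ evenPart U, x v) *
        M (ω ^ (q + s - (oddPart U).card) * ∏ v ∈ oddPart U, x v) = 0) :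
    ∑ h ∈ (univ : Finset (Fin (2 * q) → Fin n)).filter EvenFun,
      (∏ i : Fin (2 * q), a i.castSucc (h i)) * M (ω ^ s * halfMon x h) ^ 2 = 0 := by
  have e2 := h2 k R n q a x (M.comp (LinearMap.mulLeft k (ω ^ (s - 1)))) ha
  simp only [LinearMap.comp_apply, LinearMap.mulLeft_apply, ← hω, ← mul_assoc, ← pow_succ] at e2
  rw [show s - 1 + 1 = s by omega] at e2
  rw [← e2, ← e1]
  refine Finset.sum_congr rfl fun U hU => ?_
  rw [Finset.mem_powersetCard] at hU
  rw [card_evenPart, card_oddPart, hU.2, show q + s - (2 * q + 1 + 1) / 2 = s - 1 by omega,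
    show q + s - (2 * q + 1) / 2 = s by omega]

/-- balanced version: all rows vanish, and the cochain vanishes on balanced pairs -/
theorem t1bal (hexp : StExp) (halg : StAlg) (g : ℕ) {L : Finset (Finset (Fin n))}
    {c : Finset (Fin n) → Finset (Fin n) → ZMod 2} (hTr : TrV L (d + 1) c) (hdg : d + 1 = 2 * g)
    (hc : ∀ σ τ : Finset (Fin n), Disjoint σ τ → σ.card = g → τ.card = g → c σ τ = 0)
    (a : Fin (d + 1) → Fin n → k) (x : Fin n → R) (M : R →ₗ[k] k)
    (hface : ∀ σ, σ ∉ L → ∏ v ∈ σ, x v = 0)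
    (ha : ∀ i : Fin (d + 1), ∑ v, a i v • x v = 0) :
    ∑ h ∈ (univ : Finset (Fin (d + 1) → Fin n)).filter EvenFun,
      (∏ i, a i (h i)) * M (halfMon x h) ^ 2 = 0 := by
  have e1 := t1r hexp g hTr a x M 0 hface (fun i => ha i.castSucc) (ha _).symm (by omega) (by
    rw [show 2 * g - d = 1 by omega, pow_one])
  have e2 : (∑ σ, ∑ τ, if Disjoint σ τ ∧ σ.card + τ.card = d + 1 then
    κ k (c σ τ) * Zc g a x M 0 σ τ else 0) = 0 := by
    refine Finset.sum_eq_zero fun σ _ => Finset.sum_eq_zero fun τ _ => ?_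
    split_ifs with h
    · by_cases hb : σ.card ≤ g ∧ τ.card ≤ g
      · rw [hc σ τ h.1 (by omega) (by omega), map_zero, zero_mul]
      · have : Zc g a x M 0 σ τ = 0 := by
          unfold Zc
          rw [if_neg]
          rintro ⟨-, -, h3, h4⟩
          exact hb ⟨h3, h4⟩
        rw [this, mul_zero]
    · rfl
  rw [e2] at e1
  have e3 := t1e_dir halg g 0 a x M 0 (fun i => ha i.castSucc) hdg (by simpa using e1)
  simpa using e3

end

end Pool.Agent.H37.KR
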