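import Pool.Agent.H37.KR.Core2

/-!
# The statement of the Lefschetz type theorem with exceptional monomials, and the final statement
-/

set_option autoImplicit false

namespace Pool.Agent.H37.KR

open Finset MvPolynomial Pool.Agent.W555.KS Pool.Agent.Y131.KS

/-- the obstruction is the sum of the transfers of the products `β_j × α_j` of cocycles of `L`;
`β_j` is on sets of size `b_j`, `α_j` on sets of size `d + 1 - b_j ≤ b_j` -/
def Hyp {n : ℕ} (L : Finset (Finset (Fin n))) (d : ℕ) {m : ℕ} (b : Fin m → ℕ)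
    (β α : Fin m → Finset (Fin n) → ZMod 2) : Prop :=
  (∀ j, d + 1 ≤ 2 * b j ∧ b j ≤ d + 1) ∧ (∀ j, Coc L (b j) (β j)) ∧
    (∀ j, Coc L (d + 1 - b j) (α j)) ∧ TrV L (d + 1) (fun σ τ => ∑ j, β j σ * α j τ)

/-- the number of factors of size `r` -/
def nf (d : ℕ) {m : ℕ} (b : Fin m → ℕ) (r : ℕ) : ℕ :=
  (univ.filter (fun j => b j = r)).card + (univ.filter (fun j => d + 1 - b j = r)).card

/-- proved by helper37 -/
def StT2J : Prop := ∀ (n d m : ℕ) (L : Finset (Finset (Fin n))) (b : Fin m → ℕ)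
  (β α : Fin m → Finset (Fin n) → ZMod 2), IsCx L → Hyp L d b β α → ∀ r, d < 2 * r →
  ∃ J : Finset (Fin n →₀ ℕ), (∀ m ∈ J, m.degree = r) ∧ J.card ≤ Nat.choose d r * nf d b r ∧
  ∀ p : MvPolynomial (Fin n) (Kf (d + 1) n), p.IsHomogeneous r →
    p ∈ srI (Kf (d + 1) n) L ⊔
      Ideal.span (Set.range (fun i : Fin d => lf (gen (d + 1) n i.castSucc))) ⊔
      Ideal.span {lf (gen (d + 1) n (Fin.last d)) ^ (2 * r - d)} ⊔
      Ideal.span ((fun m => monomial m (1 : Kf (d + 1) n)) '' (J : Set (Fin n →₀ ℕ)))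

/-- PART F: the final count. For the first statement: `S = phi m`, `m` is not allowed (`ddm`), has
degree `r` and only the first `n - d` variables; for generic `g` these `m` are counted by `StE2`.
For the second: `S = phi m`, `S' = phi m'`, `m'` the part of `m` in the first `n - d` variables. -/
def StFin : Prop := StT2J → StD → StE1 → StE2 →
  ∀ (k : Type) [Field k], Infinite k → (CharZero k ∨ CharP k 2) →
  ∀ (n d m : ℕ) (L : Finset (Finset (Fin n))) (b : Fin m → ℕ)
    (β α : Fin m → Finset (Fin n) → ZMod 2), 1 ≤ d → d < n → IsCx L → Hyp L d b β α →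
  (∀ r, d < 2 * r → {S : Finset ℕ | S ∈ shift k L ∧ S ∉ shift k (cyc n d) ∧ S.card = r ∧
      ∀ x ∈ S, x + d + 1 < n + r}.ncard ≤ Nat.choose d r * nf d b r) ∧
  ∀ S ∈ shift k L, S ∉ shift k (cyc n d) → ∃ r, d < 2 * r ∧ ∃ S' ⊆ S, S'.card = r ∧
    S' ∈ shift k L ∧ S' ∉ shift k (cyc n d) ∧ ∀ x ∈ S', x + d + 1 < n + r

end Pool.Agent.H37.KR
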