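import Pool.Agent.H37.KR.Defs

set_option autoImplicit false

namespace Pool.Agent.H37.KR

open Finset MvPolynomial Pool.Agent.W555.KS Pool.Agent.Y131.KS

/-- PART L: exchange. If the degree `r` part is spanned, modulo the homogeneous ideal `I`, by `z_i`,
`i` in a finite type `ι`, then also by at most `card ι` monomials. -/
def StLin : Prop := ∀ (k : Type) [Field k] (n r : ℕ) (ι : Type) [Fintype ι]
  (I : Ideal (MvPolynomial (Fin n) k)) (z : ι → MvPolynomial (Fin n) k),
  Pool.Agent.W977.KS.HomI I → (∀ i, (z i).IsHomogeneous r) →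
  (∀ p : MvPolynomial (Fin n) k, p.IsHomogeneous r → p ∈ I ⊔ Ideal.span (Set.range z)) →
  ∃ J : Finset (Fin n →₀ ℕ), (∀ m ∈ J, m.degree = r) ∧ J.card ≤ Fintype.card ι ∧
  ∀ p : MvPolynomial (Fin n) k, p.IsHomogeneous r →
    p ∈ I ⊔ Ideal.span ((fun m => monomial m (1 : k)) '' (J : Set (Fin n →₀ ℕ)))

end Pool.Agent.H37.KR
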