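import Pool.Agent.H37.KR.T2b
import Pool.Agent.H67.KR.Fin1
import Pool.Agent.H86.KR.PartD
import Pool.Agent.H36.KR.E1
import Pool.Agent.H91.KR.E2

/-!
# Kalai-Sarkaria with products of cocycles: assembly
-/

set_option autoImplicit false

namespace Pool.Agent.H37.KR

open Finset MvPolynomial Pool.Agent.W555.KS Pool.Agent.Y131.KS

theorem main (k : Type) [Field k] [Infinite k] (hk : CharZero k ∨ CharP k 2)
    (n d m : ℕ) (L : Finset (Finset (Fin n))) (b : Fin m → ℕ)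
    (β α : Fin m → Finset (Fin n) → ZMod 2) (hd : 1 ≤ d) (hn : d < n) (hL : IsCx L)
    (hH : Hyp L d b β α) :
    (∀ r, d < 2 * r → {S : Finset ℕ | S ∈ shift k L ∧ S ∉ shift k (cyc n d) ∧ S.card = r ∧
      ∀ x ∈ S, x + d + 1 < n + r}.ncard ≤ Nat.choose d r * nf d b r) ∧
    ∀ S ∈ shift k L, S ∉ shift k (cyc n d) → ∃ r, d < 2 * r ∧ ∃ S' ⊆ S, S'.card = r ∧
      S' ∈ shift k L ∧ S' ∉ shift k (cyc n d) ∧ ∀ x ∈ S', x + d + 1 < n + r :=
  Pool.Agent.H67.KR.stFin stT2J Pool.Agent.H86.KR.stD Pool.Agent.H36.KR.stE1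
    Pool.Agent.H91.KR.stE2 k inferInstance hk n d m L b β α hd hn hL hH

end Pool.Agent.H37.KR
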