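import Pool.Agent.H37.KR.Fin
import Pool.Graph.R_seed8.Y131.KS.Sph
import Pool.Graph.R_seed8.Y131.KS.Sub

/-!
# Subcomplexes of closed homology manifolds which almost embed in the sphere of one more dimension

`K` a closed connected mod 2 homology manifold of dimension `d - 1` with `VK2 K (d + 2)`. Then the
obstruction of `K` (and of every subcomplex `L`) is a sum of products of cocycles, with
`nf d b r ≤ betti K r`.
-/

set_option autoImplicit false

namespace Pool.Agent.H37.KR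

open Finset MvPolynomial Pool.Agent.W555.KS Pool.Agent.Y131.KS

variable {N n : ℕ}

/-- closed connected mod 2 homology manifolds of dimension `d - 1` -/
structure HMan (K : Finset (Finset (Fin N))) (d : ℕ) : Prop where
  cx : IsCx K
  two_le : 2 ≤ d
  card_le : ∀ σ ∈ K, σ.card ≤ d
  lks : ∀ v, ({v} : Finset (Fin N)) ∈ K → HSph (lk K {v}) (d - 1)
  top : ∃ z : Finset (Fin N) → ZMod 2, z ≠ 0 ∧ Sp K d z ∧ (∀ ρ, bdr z ρ = 0) ∧
    ∀ z', Sp K d z' → (∀ ρ, bdr z' ρ = 0) → z' = 0 ∨ z' = z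

/-- value of a cochain on a chain -/
def prc (α c : Finset (Fin N) → ZMod 2) : ZMod 2 := ∑ σ, α σ * c σ

/-- cycles of `K` with `s` vertices -/
def cycS (K : Finset (Finset (Fin N))) (s : ℕ) :
    Submodule (ZMod 2) (Finset (Fin N) → ZMod 2) where
  carrier := {c | Sp K s c ∧ ∀ ρ, bdr c ρ = 0}
  add_mem' := by
    rintro a b ⟨h1, h2⟩ ⟨h3, h4⟩
    refine ⟨fun σ h => ?_, fun ρ => ?_⟩
    · by_cases ha : a σ = 0
      · by_cases hb : b σ = 0
        · exact absurd (by rw [Pi.add_apply, ha, hb, add_zero]) h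
        · exact h3 σ hb
      · exact h1 σ ha
    · have := bdr_add a b ρ
      rw [h2, h4, add_zero] at this
      exact this
  zero_mem' := ⟨fun σ h => absurd rfl h, fun ρ => bdr_zero ρ⟩
  smul_mem' := by
    rintro c a ⟨h1, h2⟩
    rcases (show c = 0 ∨ c = 1 by revert c; decide) with rfl | rfl
    · rw [zero_smul]
      exact ⟨fun σ h => absurd rfl h, fun ρ => bdr_zero ρ⟩
    · rw [one_smul]
      exact ⟨h1, h2⟩

/-- boundaries -/
def bdS (K : Finset (Finset (Fin N))) (s : ℕ) :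
    Submodule (ZMod 2) (Finset (Fin N) → ZMod 2) where
  carrier := {c | ∃ b, Sp K (s + 1) b ∧ ∀ ρ, c ρ = bdr b ρ}
  add_mem' := by
    rintro a a' ⟨b, h1, h2⟩ ⟨b', h3, h4⟩
    refine ⟨fun σ => b σ + b' σ, fun σ h => ?_, fun ρ => ?_⟩
    · by_cases ha : b σ = 0
      · by_cases hb : b' σ = 0
        · exact absurd (by beta_reduce; rw [ha, hb, add_zero]) h
        · exact h3 σ hb
      · exact h1 σ ha
    · rw [bdr_add, Pi.add_apply, h2, h4]
  zero_mem' := ⟨fun _ => 0, fun σ h => absurd rfl h, fun ρ => (bdr_zero ρ).symm⟩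
  smul_mem' := by
    rintro c a ⟨b, h1, h2⟩
    rcases (show c = 0 ∨ c = 1 by revert c; decide) with rfl | rfl
    · rw [zero_smul]
      exact ⟨fun _ => 0, fun σ h => absurd rfl h, fun ρ => (bdr_zero ρ).symm⟩
    · rw [one_smul]
      exact ⟨b, h1, h2⟩

/-- dimension of the reduced homology `H_(s-1) (K; F_2)` -/
noncomputable def betti (K : Finset (Finset (Fin N))) (s : ℕ) : ℕ :=
  Module.finrank (ZMod 2) (cycS K s) - Module.finrank (ZMod 2) (bdS K s)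

/-- PART P1: dual bases of homology and cohomology -/
def StP1 : Prop := ∀ (N : ℕ) (K : Finset (Finset (Fin N))) (s : ℕ), IsCx K →
  ∃ (c α : Fin (betti K s) → Finset (Fin N) → ZMod 2),
    (∀ i, Sp K s (c i) ∧ ∀ ρ, bdr (c i) ρ = 0) ∧ (∀ i, Coc K s (α i)) ∧
    (∀ i j, prc (α i) (c j) = if i = j then 1 else 0) ∧
    ∀ x, Sp K s x → (∀ ρ, bdr x ρ = 0) → (∀ i, prc (α i) x = 0) →
      ∃ b, Sp K (s + 1) b ∧ ∀ ρ, x ρ = bdr b ρ

/-- PART P2: the deletion of a nonempty face (adapt `base`, `del_acyclic`, `mv`, `fix`; links of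
vertices in deletions are acyclic by `del_acyclic`) -/
def StP2 : Prop := ∀ (N : ℕ) (K : Finset (Finset (Fin N))) (d : ℕ), HMan K d →
  ∀ σ ∈ K, σ.Nonempty →
    (∀ s c, Sp (del K σ) s c → (∃ b, Sp K (s + 1) b ∧ ∀ ρ, c ρ = bdr b ρ) →
      ∃ b, Sp (del K σ) (s + 1) b ∧ ∀ ρ, c ρ = bdr b ρ) ∧
    (∀ c, Sp (del K σ) d c → (∀ ρ, bdr c ρ = 0) → ∀ ρ, c ρ = 0) ∧
    ∀ s, s < d → ∀ c, Sp K s c → (∀ ρ, bdr c ρ = 0) → ∃ c' e, Sp (del K σ) s c' ∧
      (∀ ρ, bdr c' ρ = 0) ∧ Sp K (s + 1) e ∧ ∀ ρ, c ρ + c' ρ = bdr e ρ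

/-- PART P3: a cycle on which all products of cocycles vanish is a boundary -/
def StP3 : Prop := StP1 → StP2 → ∀ (N : ℕ) (K : Finset (Finset (Fin N))) (d : ℕ), HMan K d →
  ∀ (D : ℕ), d < D → ∀ Z : Finset (Fin N) → Finset (Fin N) → ZMod 2, Ch2 K D Z →
    (∀ ρ τ, dd Z ρ τ = 0) →
    (∀ p s, p + s = D → s < d → ∀ β α, Coc K p β → Coc K s α →
      ∑ σ, ∑ τ, β σ * α τ * Z σ τ = 0) →
    ∃ Y, Ch2 K (D + 1) Y ∧ ∀ ρ τ, dd Y ρ τ = Z ρ τ

/-- PART P5b: alternating matrices over `F_2` have even rank `2 m` -/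
def StSym : Prop := ∀ (b : ℕ) (c : Fin b → Fin b → ZMod 2), (∀ i, c i i = 0) →
  (∀ i j, c i j = c j i) → ∃ (m : ℕ) (X Y : Fin m → Fin b → ZMod 2), 2 * m ≤ b ∧
    ∀ i j, c i j = ∑ t, (X t i * Y t j + Y t i * X t j)

/-- PART P5: the obstruction of `K` is a sum of products -/
def StP5 : Prop := StSym → StP1 → StP2 → StP3 → ∀ (N : ℕ) (K : Finset (Finset (Fin N))) (d : ℕ),
  HMan K d → VK2 K (d + 2) → ∃ (m : ℕ) (b : Fin m → ℕ) (β α : Fin m → Finset (Fin N) → ZMod 2),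
    Hyp K d b β α ∧ ∀ r, d < 2 * r → nf d b r ≤ betti K r

/-- PART P6: subcomplexes (`f` any injection: relabel `K`, as in `vk2_of_sphere`, `vk2_mono`) -/
def StP6 : Prop := StP5 → StSym → StP1 → StP2 → StP3 → ∀ (N n : ℕ) (K : Finset (Finset (Fin N)))
  (d : ℕ) (L : Finset (Finset (Fin n))) (f : Fin n ↪ Fin N), HMan K d → VK2 K (d + 2) →
  (∀ σ ∈ L, σ.map f ∈ K) →
  ∃ (m : ℕ) (b : Fin m → ℕ) (β α : Fin m → Finset (Fin n) → ZMod 2),
    Hyp L d b β α ∧ ∀ r, d < 2 * r → nf d b r ≤ betti K r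

end Pool.Agent.H37.KR
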