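import Pool.Agent.H37.KR.Man

/-!
# Part P3: cycles of the deleted join on which all products of cocycles vanish
-/

set_option autoImplicit false

namespace Pool.Agent.H37.KR

open Finset MvPolynomial Pool.Agent.W555.KS Pool.Agent.Y131.KS

variable {N : ℕ}

theorem sum_erase' {A : Type*} [AddCommMonoid A] (G : Finset (Fin N) → Fin N → A) :
    ∑ τ, ∑ v ∈ τ, G (τ.erase v) v = ∑ σ, ∑ v ∈ σᶜ, G σ v := by
  rw [Finset.sum_sigma', Finset.sum_sigma']
  refine Finset.sum_bij' (fun p _ => (⟨p.1.erase p.2, p.2⟩ : (_ : Finset (Fin N)) × Fin N))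
    (fun p _ => (⟨insert p.2 p.1, p.2⟩ : (_ : Finset (Fin N)) × Fin N)) ?_ ?_ ?_ ?_ ?_
  · rintro ⟨τ, v⟩ h
    simp only [mem_sigma, mem_univ, true_and, mem_compl] at h ⊢
    exact notMem_erase _ _
  · rintro ⟨σ, v⟩ h
    simp only [mem_sigma, mem_univ, true_and, mem_compl] at h ⊢
    exact mem_insert_self _ _
  · rintro ⟨τ, v⟩ h
    simp only [mem_sigma, mem_univ, true_and] at h
    simp only [insert_erase h]
  · rintro ⟨σ, v⟩ h
    simp only [mem_sigma, mem_univ, true_and, mem_compl] at h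
    simp only [erase_insert h]
  · rintro ⟨τ, v⟩ h
    rfl

theorem prc_bdr {K : Finset (Finset (Fin N))} {s : ℕ} {α : Finset (Fin N) → ZMod 2}
    (hα : Coc K s α) {c : Finset (Fin N) → ZMod 2} (hc : ∀ τ, c τ ≠ 0 → τ ∈ K) :
    prc α (bdr c) = 0 := by
  unfold prc bdr
  have h1 : ∀ τ : Finset (Fin N), α τ * ∑ v ∈ τᶜ, c (insert v τ) =
      ∑ v ∈ τᶜ, α τ * c (insert v τ) := fun τ => by rw [mul_sum]
  rw [sum_congr rfl fun τ _ => h1 τ, ← sum_erase' (fun τ v => α τ * c (insert v τ))]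
  refine sum_eq_zero fun τ _ => ?_
  have h2 : ∑ v ∈ τ, α (τ.erase v) * c (insert v (τ.erase v)) =
      (∑ v ∈ τ, α (τ.erase v)) * c τ := by
    rw [sum_mul]
    refine sum_congr rfl fun v hv => ?_
    rw [insert_erase hv]
  rw [h2]
  by_cases hτ : c τ = 0
  · rw [hτ, mul_zero]
  · by_cases h3 : τ.card = s + 1
    · rw [hα.2 τ (hc τ hτ) h3, zero_mul]
    · have h4 : ∑ v ∈ τ, α (τ.erase v) = 0 := by
        refine sum_eq_zero fun v hv => hα.1 _ ?_
        rw [card_erase_of_mem hv]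
        have := card_pos.2 ⟨v, hv⟩
        omega
      rw [h4, zero_mul]

theorem dd_split {K : Finset (Finset (Fin N))} {D : ℕ}
    {W : Finset (Fin N) → Finset (Fin N) → ZMod 2} (hW : Ch2 K D W) (ρ τ : Finset (Fin N)) :
    dd W ρ τ = bdr (fun σ => W σ τ) ρ + bdr (W ρ) τ := by
  unfold dd bdr
  rw [sum_add_distrib]
  congr 1
  · have h2 : (ρ ∪ τ)ᶜ ⊆ ρᶜ := compl_subset_compl.2 subset_union_left
    rw [← sum_subset h2]
    intro v hv1 hv2
    rw [mem_compl] at hv1
    rw [mem_compl, not_not, mem_union] at hv2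
    by_contra hne
    have c := (hW _ _ hne).2.2.1
    rw [disjoint_insert_left] at c
    rcases hv2 with hv2 | hv2
    · exact hv1 hv2
    · exact c.1 hv2
  · have h2 : (ρ ∪ τ)ᶜ ⊆ τᶜ := compl_subset_compl.2 subset_union_right
    rw [← sum_subset h2]
    intro v hv1 hv2
    rw [mem_compl] at hv1
    rw [mem_compl, not_not, mem_union] at hv2
    by_contra hne
    have c := (hW _ _ hne).2.2.1
    rw [disjoint_insert_right] at c
    rcases hv2 with hv2 | hv2
    · exact c.1 hv2
    · exact hv1 hv2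

/-- products of cocycles vanish on boundaries -/
theorem prod_dd {K : Finset (Finset (Fin N))} {D p s : ℕ}
    {W : Finset (Fin N) → Finset (Fin N) → ZMod 2} (hW : Ch2 K D W)
    {β α : Finset (Fin N) → ZMod 2} (hβ : Coc K p β) (hα : Coc K s α) :
    ∑ σ, ∑ τ, β σ * α τ * dd W σ τ = 0 := by
  have h1 : ∑ σ, ∑ τ, β σ * α τ * dd W σ τ =
      ∑ τ, α τ * prc β (bdr (fun σ => W σ τ)) + ∑ σ, β σ * prc α (bdr (W σ)) := by
    have e1 : ∑ τ, α τ * prc β (bdr (fun σ => W σ τ)) =
        ∑ σ, ∑ τ, β σ * α τ * bdr (fun σ => W σ τ) σ := by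
      rw [sum_comm]
      refine sum_congr rfl fun τ _ => ?_
      unfold prc
      rw [mul_sum]
      exact sum_congr rfl fun σ _ => by ring
    have e2 : ∑ σ, β σ * prc α (bdr (W σ)) = ∑ σ, ∑ τ, β σ * α τ * bdr (W σ) τ := by
      refine sum_congr rfl fun σ _ => ?_
      unfold prc
      rw [mul_sum]
      exact sum_congr rfl fun τ _ => by ring
    rw [e1, e2, ← sum_add_distrib]
    refine sum_congr rfl fun σ _ => ?_
    rw [← sum_add_distrib]
    refine sum_congr rfl fun τ _ => ?_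
    rw [dd_split hW]
    ring
  rw [h1]
  have h2 : ∑ τ, α τ * prc β (bdr (fun σ => W σ τ)) = 0 :=
    sum_eq_zero fun τ _ => by rw [prc_bdr hβ (fun σ h => (hW _ _ h).1), mul_zero]
  have h3 : ∑ σ, β σ * prc α (bdr (W σ)) = 0 :=
    sum_eq_zero fun σ _ => by rw [prc_bdr hα (fun τ h => (hW _ _ h).2.1), mul_zero]
  rw [h2, h3, add_zero]

theorem ch2_add {K : Finset (Finset (Fin N))} {D : ℕ}
    {Z W : Finset (Fin N) → Finset (Fin N) → ZMod 2} (hZ : Ch2 K D Z) (hW : Ch2 K D W) :
    Ch2 K D (fun σ τ => Z σ τ + W σ τ) := by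
  intro σ τ h
  have h3 : Z σ τ ≠ 0 ∨ W σ τ ≠ 0 := by
    by_contra hcon
    push Not at hcon
    exact h (by beta_reduce; rw [hcon.1, hcon.2, add_zero])
  rcases h3 with h3 | h3
  · exact hZ _ _ h3
  · exact hW _ _ h3

/-- the top slices are cycles in the deletions -/
theorem slice_cyc {K : Finset (Finset (Fin N))} {D : ℕ}
    {Z : Finset (Fin N) → Finset (Fin N) → ZMod 2} (hZ : Ch2 K D Z)
    (hcy : ∀ ρ τ, dd Z ρ τ = 0) (σ : Finset (Fin N)) (h0 : ∀ v, v ∉ σ → ∀ τ, Z (insert v σ) τ = 0)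
    (τ : Finset (Fin N)) : bdr (Z σ) τ = 0 := by
  have h1 := hcy σ τ
  rw [dd_split hZ] at h1
  have h2 : bdr (fun σ => Z σ τ) σ = 0 := by
    unfold bdr
    exact sum_eq_zero fun v hv => h0 v (mem_compl.1 hv) τ
  rwa [h2, zero_add] at h1

/-- step (i): after adding a boundary the top slices bound in the deletions -/
theorem slices (h1 : StP1) (h2 : StP2) {K : Finset (Finset (Fin N))} {d : ℕ} (hK : HMan K d)
    {D : ℕ} (p : ℕ) (Z : Finset (Fin N) → Finset (Fin N) → ZMod 2)
    (hZ : Ch2 K D Z) (hcy : ∀ ρ τ, dd Z ρ τ = 0)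
    (hprod : ∀ p s, p + s = D → s < d → ∀ β α, Coc K p β → Coc K s α →
      ∑ σ, ∑ τ, β σ * α τ * Z σ τ = 0)
    (h0 : ∀ σ τ, p + 1 < σ.card → Z σ τ = 0) (hpD : p + 1 ≤ D) :
    ∃ W, Ch2 K (D + 1) W ∧ (∀ σ τ, p + 1 < σ.card → dd W σ τ = 0) ∧
      ∀ σ, σ ∈ K → σ.card = p + 1 → ∃ y, Sp (del K σ) (D - (p + 1) + 1) y ∧
        ∀ τ, Z σ τ + dd W σ τ = bdr y τ := by
  classical
  have hne : ∀ σ : Finset (Fin N), σ.card = p + 1 → σ.Nonempty := by
    intro σ hσ
    rw [← card_pos, hσ]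
    omega
  set s := D - (p + 1) with hs
  by_cases hsd : s < d
  · obtain ⟨c, α, hc, hα, hdual, hdet⟩ := h1 N K s hK.cx
    obtain ⟨c1, α1, hc1, hα1, hdual1, hdet1⟩ := h1 N K (p + 1) hK.cx
    -- the chains of classes
    have hζs : ∀ i, Sp K (p + 1) (fun σ => prc (α i) (Z σ)) := by
      intro i σ hσ
      obtain ⟨τ, -, hτ⟩ := exists_ne_zero_of_sum_ne_zero hσ
      obtain ⟨a, b, c', e⟩ := hZ σ τ (right_ne_zero_of_mul hτ)
      have h3 : τ.card = s := by
        by_contra hcon
        exact left_ne_zero_of_mul hτ ((hα i).1 τ hcon)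
      exact ⟨a, by omega⟩
    have hζc : ∀ i ρ, bdr (fun σ => prc (α i) (Z σ)) ρ = 0 := by
      intro i ρ
      have e1 : bdr (fun σ => prc (α i) (Z σ)) ρ =
          ∑ τ, α i τ * bdr (fun σ => Z σ τ) ρ := by
        unfold bdr prc
        rw [sum_comm]
        refine sum_congr rfl fun τ _ => ?_
        rw [mul_sum]
      have e2 : ∀ τ, bdr (fun σ => Z σ τ) ρ = bdr (Z ρ) τ := by
        intro τ
        have h3 := hcy ρ τ
        rw [dd_split hZ] at h3
        have h4 : ∀ a b : ZMod 2, a + b = 0 → a = b := by decide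
        exact h4 _ _ h3
      rw [e1, sum_congr rfl fun τ _ => by rw [e2 τ]]
      exact prc_bdr (hα i) (fun τ h => (hZ _ _ h).2.1)
    have hξ : ∀ i, ∃ ξ, Sp K (p + 1 + 1) ξ ∧ ∀ σ, prc (α i) (Z σ) = bdr ξ σ := by
      intro i
      refine hdet1 _ (hζs i) (hζc i) fun j => ?_
      have h3 := hprod (p + 1) s (by omega) hsd (α1 j) (α i) (hα1 j) (hα i)
      rw [← h3]
      unfold prc
      refine sum_congr rfl fun σ _ => ?_
      rw [mul_sum]
      exact sum_congr rfl fun τ _ => by ring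
    choose ξ hξ1 hξ2 using hξ
    have hsurj : ∀ (i : Fin (betti K s)) (μ : Finset (Fin N)), ∃ c' : Finset (Fin N) → ZMod 2,
        (μ ∈ K ∧ μ.Nonempty) → Sp (del K μ) s c' ∧ (∀ ρ, bdr c' ρ = 0) ∧
          ∀ j, prc (α j) c' = if j = i then 1 else 0 := by
      intro i μ
      by_cases hμ : μ ∈ K ∧ μ.Nonempty
      · obtain ⟨c', e, h3, h4, h5, h6⟩ := (h2 N K d hK μ hμ.1 hμ.2).2.2 s hsd (c i) (hc i).1 (hc i).2
        refine ⟨c', fun _ => ⟨h3, h4, fun j => ?_⟩⟩
        rw [← hdual j i]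
        have h7 := prc_bdr (hα j) (fun τ h => (h5 τ h).1)
        have h8 : prc (α j) (bdr e) = prc (α j) (c i) + prc (α j) c' := by
          unfold prc
          rw [← sum_add_distrib]
          refine sum_congr rfl fun τ _ => ?_
          rw [← h6]
          ring
        rw [h8] at h7
        have h9 : ∀ a b : ZMod 2, a + b = 0 → b = a := by decide
        exact h9 _ _ h7
      · exact ⟨fun _ => 0, fun h => absurd h hμ⟩
    choose cc hcc using hsurj
    let W : Finset (Fin N) → Finset (Fin N) → ZMod 2 := fun σ τ => ∑ i, ξ i σ * cc i σ τ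
    have hWn : ∀ σ τ, W σ τ ≠ 0 → σ ∈ K ∧ σ.card = p + 1 + 1 ∧ τ ∈ K ∧ Disjoint σ τ ∧ τ.card = s := by
      intro σ τ h
      obtain ⟨i, -, hi⟩ := exists_ne_zero_of_sum_ne_zero h
      obtain ⟨a, b⟩ := hξ1 i σ (left_ne_zero_of_mul hi)
      have hσn : σ.Nonempty := by
        rw [← card_pos, b]
        omega
      obtain ⟨e, f⟩ := (hcc i σ ⟨a, hσn⟩).1 τ (right_ne_zero_of_mul hi)
      rw [mem_del] at e
      exact ⟨a, b, e.1, e.2.symm, f⟩
    have hWc : Ch2 K (D + 1) W := by
      intro σ τ h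
      obtain ⟨a, b, c', e, f⟩ := hWn σ τ h
      exact ⟨a, c', e, by omega⟩
    have hWb : ∀ σ τ, bdr (W σ) τ = 0 := by
      intro σ τ
      by_cases hσ : σ ∈ K ∧ σ.Nonempty
      · have e1 : bdr (W σ) τ = ∑ i, ξ i σ * bdr (cc i σ) τ := by
          unfold bdr
          simp only [W]
          rw [sum_comm]
          exact sum_congr rfl fun i _ => by rw [mul_sum]
        rw [e1]
        exact sum_eq_zero fun i _ => by rw [(hcc i σ hσ).2.1, mul_zero]
      · unfold bdr
        refine sum_eq_zero fun v _ => ?_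
        by_contra hne
        obtain ⟨a, b, -⟩ := hWn _ _ hne
        exact hσ ⟨a, by rw [← card_pos, b]; omega⟩
    refine ⟨W, hWc, ?_, ?_⟩
    · intro σ τ hσ
      rw [dd_split hWc, hWb, add_zero]
      unfold bdr
      refine sum_eq_zero fun v hv => ?_
      by_contra hne
      obtain ⟨-, b, -⟩ := hWn _ _ hne
      rw [card_insert_of_notMem (mem_compl.1 hv)] at b
      omega
    · intro σ hσK hσ
      have hddW : ∀ τ, dd W σ τ = ∑ v ∈ σᶜ, W (insert v σ) τ := by
        intro τ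
        rw [dd_split hWc, hWb, add_zero]
        rfl
      have hcyc : ∀ τ, bdr (fun τ => Z σ τ + dd W σ τ) τ = 0 := by
        intro τ
        refine slice_cyc (K := K) (D := D) (Z := fun σ τ => Z σ τ + dd W σ τ)
          (ch2_add hZ (dd_ch2 hK.cx hWc)) (fun ρ τ => by
            rw [dd_add, hcy, dd_dd, add_zero]) σ ?_ τ
        intro v hv τ
        have h3 : p + 1 < (insert v σ).card := by
          rw [card_insert_of_notMem hv]
          omega
        beta_reduce
        rw [h0 _ _ h3, zero_add, dd_split hWc, hWb, add_zero]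
        unfold bdr
        refine sum_eq_zero fun w hw => ?_
        by_contra hne
        obtain ⟨-, b, -⟩ := hWn _ _ hne
        rw [card_insert_of_notMem (mem_compl.1 hw)] at b
        omega
      have hsp : Sp (del K σ) s (fun τ => Z σ τ + dd W σ τ) := by
        intro τ h
        obtain ⟨a, b, c', e⟩ := ch2_add hZ (dd_ch2 hK.cx hWc) σ τ h
        exact ⟨mem_del.2 ⟨b, c'.symm⟩, by omega⟩
      have hspK : Sp K s (fun τ => Z σ τ + dd W σ τ) := fun τ h =>
        ⟨(mem_del.1 (hsp τ h).1).1, (hsp τ h).2⟩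
      have hpair : ∀ j, prc (α j) (fun τ => Z σ τ + dd W σ τ) = 0 := by
        intro j
        have e1 : prc (α j) (fun τ => Z σ τ + dd W σ τ) =
            prc (α j) (Z σ) + ∑ v ∈ σᶜ, prc (α j) (W (insert v σ)) := by
          unfold prc
          rw [sum_comm, ← sum_add_distrib]
          refine sum_congr rfl fun τ _ => ?_
          beta_reduce
          rw [hddW, mul_add, mul_sum]
        have e2 : ∀ v ∈ σᶜ, prc (α j) (W (insert v σ)) = ξ j (insert v σ) := by
          intro v _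
          have e3 : prc (α j) (W (insert v σ)) =
              ∑ i, ξ i (insert v σ) * prc (α j) (cc i (insert v σ)) := by
            unfold prc
            simp only [W]
            have e4 : ∀ τ, α j τ * ∑ i, ξ i (insert v σ) * cc i (insert v σ) τ =
                ∑ i, ξ i (insert v σ) * (α j τ * cc i (insert v σ) τ) := by
              intro τ
              rw [mul_sum]
              exact sum_congr rfl fun i _ => by ring
            rw [sum_congr rfl fun τ _ => e4 τ, sum_comm]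
            exact sum_congr rfl fun i _ => by rw [mul_sum]
          rw [e3]
          have e5 : ∀ i, ξ i (insert v σ) * prc (α j) (cc i (insert v σ)) =
              if j = i then ξ i (insert v σ) else 0 := by
            intro i
            by_cases hz : ξ i (insert v σ) = 0
            · rw [hz, zero_mul, ite_self]
            · obtain ⟨a, b⟩ := hξ1 i _ hz
              rw [(hcc i _ ⟨a, by rw [← card_pos, b]; omega⟩).2.2 j]
              split_ifs
              · rw [mul_one]
              · rw [mul_zero]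
          rw [sum_congr rfl fun i _ => e5 i, sum_ite_eq, if_pos (mem_univ _)]
        rw [e1, sum_congr rfl e2, hξ2 j σ]
        unfold bdr
        exact z2 _
      obtain ⟨b, hb1, hb2⟩ := hdet _ hspK hcyc hpair
      exact (h2 N K d hK σ hσK (hne σ hσ)).1 s _ hsp ⟨b, hb1, hb2⟩
  · -- large size: the slices are zero
    refine ⟨fun _ _ => 0, fun σ τ h => absurd rfl h, fun σ τ _ => ?_, ?_⟩
    · unfold dd
      simp
    · intro σ hσK hσ
      refine ⟨fun _ => 0, fun τ h => absurd rfl h, fun τ => ?_⟩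
      have e1 : dd (fun _ _ => (0 : ZMod 2)) σ τ = 0 := by
        unfold dd
        simp
      rw [e1, add_zero, bdr_zero]
      have hcyc : ∀ τ, bdr (Z σ) τ = 0 := by
        intro τ
        refine slice_cyc hZ hcy σ ?_ τ
        intro v hv τ
        exact h0 _ _ (by rw [card_insert_of_notMem hv]; omega)
      rcases Nat.lt_or_ge d s with h3 | h3
      · by_contra hne'
        obtain ⟨a, b, c', e⟩ := hZ σ τ hne'
        have := hK.card_le τ b
        omega
      · have hsd' : s = d := by omega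
        refine (h2 N K d hK σ hσK (hne σ hσ)).2.1 (Z σ) ?_ hcyc τ
        intro τ h
        obtain ⟨a, b, c', e⟩ := hZ σ τ h
        exact ⟨mem_del.2 ⟨b, c'.symm⟩, by omega⟩

theorem bounds3 (h1 : StP1) (h2 : StP2) {K : Finset (Finset (Fin N))} {d : ℕ} (hK : HMan K d)
    {D : ℕ} (hD : d < D) (p : ℕ) : ∀ Z : Finset (Fin N) → Finset (Fin N) → ZMod 2, Ch2 K D Z →
    (∀ ρ τ, dd Z ρ τ = 0) →
    (∀ p s, p + s = D → s < d → ∀ β α, Coc K p β → Coc K s α →
      ∑ σ, ∑ τ, β σ * α τ * Z σ τ = 0) →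
    (∀ σ τ, p < σ.card → Z σ τ = 0) →
    ∃ Y, Ch2 K (D + 1) Y ∧ ∀ ρ τ, dd Y ρ τ = Z ρ τ := by
  classical
  induction p with
  | zero =>
    intro Z hZ _ _ h0
    refine ⟨fun _ _ => 0, fun σ τ h => absurd rfl h, fun ρ τ => ?_⟩
    have h1 : dd (fun _ _ => 0) ρ τ = (0 : ZMod 2) := by
      unfold dd
      simp
    rw [h1]
    by_contra hne
    obtain ⟨a, b, c, e⟩ := hZ ρ τ (Ne.symm hne)
    have h2 : ¬ 0 < ρ.card := fun h => (Ne.symm hne) (h0 ρ τ h)
    have := hK.card_le τ b
    omega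
  | succ p ih =>
    intro Z hZ hcy hprod h0
    by_cases hpD : p + 1 ≤ D
    swap
    · refine ih Z hZ hcy hprod ?_
      intro σ τ h
      by_contra hne
      obtain ⟨a, b, c, e⟩ := hZ σ τ hne
      omega
    obtain ⟨W, hW, hW0, hWy⟩ := slices h1 h2 hK p Z hZ hcy hprod h0 hpD
    have hy : ∀ σ : Finset (Fin N), ∃ y : Finset (Fin N) → ZMod 2, (σ ∈ K ∧ σ.card = p + 1) →
        Sp (del K σ) (D - (p + 1) + 1) y ∧ ∀ τ, Z σ τ + dd W σ τ = bdr y τ := by
      intro σ
      by_cases hσ : σ ∈ K ∧ σ.card = p + 1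
      · obtain ⟨y, hy1, hy2⟩ := hWy σ hσ.1 hσ.2
        exact ⟨y, fun _ => ⟨hy1, hy2⟩⟩
      · exact ⟨fun _ => 0, fun h => absurd h hσ⟩
    choose y hy using hy
    set Z' : Finset (Fin N) → Finset (Fin N) → ZMod 2 := fun σ τ => Z σ τ + dd W σ τ with hZ'
    have hZ'c : Ch2 K D Z' := ch2_add hZ (dd_ch2 hK.cx hW)
    set Y0 : Finset (Fin N) → Finset (Fin N) → ZMod 2 :=
      fun σ τ => if σ ∈ K ∧ σ.card = p + 1 then y σ τ else 0 with hY0
    have hY0c : Ch2 K (D + 1) Y0 := by
      intro σ τ h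
      simp only [hY0] at h
      split_ifs at h with hσ
      · obtain ⟨h1, h2⟩ := (hy σ hσ).1 τ h
        rw [mem_del] at h1
        have := hK.card_le σ hσ.1
        exact ⟨hσ.1, h1.1, h1.2.symm, by omega⟩
      · exact absurd rfl h
    have hdY : ∀ σ τ, σ.card = p + 1 → dd Y0 σ τ = Z' σ τ := by
      intro σ τ hσ
      by_cases hσK : σ ∈ K
      · show dd Y0 σ τ = Z σ τ + dd W σ τ
        rw [(hy σ ⟨hσK, hσ⟩).2 τ, dd_split hY0c]
        have e1 : bdr (fun σ => Y0 σ τ) σ = 0 := by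
          unfold bdr
          refine sum_eq_zero fun v hv => ?_
          simp only [hY0]
          rw [if_neg]
          rintro ⟨-, h3⟩
          rw [card_insert_of_notMem (mem_compl.1 hv)] at h3
          omega
        rw [e1, zero_add]
        have e2 : Y0 σ = y σ := by
          funext τ
          simp only [hY0]
          rw [if_pos ⟨hσK, hσ⟩]
        rw [e2]
      · have h1 : Z' σ τ = 0 := by
          by_contra hne
          exact hσK (hZ'c _ _ hne).1
        rw [h1]
        by_contra hne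
        exact hσK (dd_ch2 hK.cx hY0c _ _ hne).1
    obtain ⟨Y1, hY1, hY1d⟩ := ih (fun σ τ => Z' σ τ + dd Y0 σ τ)
      (ch2_add hZ'c (dd_ch2 hK.cx hY0c)) (by
      intro ρ τ
      rw [dd_add, dd_dd, add_zero, hZ', dd_add, hcy, dd_dd, add_zero]) (by
      intro p' s hps hs β α hβ hα
      have e1 : ∑ σ, ∑ τ, β σ * α τ * (Z' σ τ + dd Y0 σ τ) =
          ∑ σ, ∑ τ, β σ * α τ * Z σ τ + ∑ σ, ∑ τ, β σ * α τ * dd W σ τ +
            ∑ σ, ∑ τ, β σ * α τ * dd Y0 σ τ := by
        rw [← sum_add_distrib, ← sum_add_distrib]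
        refine sum_congr rfl fun σ _ => ?_
        rw [← sum_add_distrib, ← sum_add_distrib]
        refine sum_congr rfl fun τ _ => ?_
        rw [hZ']
        ring
      rw [e1, hprod p' s hps hs β α hβ hα, prod_dd hW hβ hα, prod_dd hY0c hβ hα]
      simp) (by
      intro σ τ h
      rcases Nat.lt_or_ge (p + 1) σ.card with h1 | h1
      · show (Z σ τ + dd W σ τ) + dd Y0 σ τ = 0
        rw [h0 σ τ h1, hW0 σ τ h1, zero_add, zero_add]
        by_contra hne
        obtain ⟨v, a, b, c | c⟩ := dd_ne hne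
        · simp only [hY0] at c
          rw [if_neg] at c
          · exact c rfl
          · rintro ⟨-, h3⟩
            rw [card_insert_of_notMem a] at h3
            omega
        · simp only [hY0] at c
          rw [if_neg] at c
          · exact c rfl
          · rintro ⟨-, h3⟩
            omega
      · rw [hdY σ τ (by omega)]
        exact z2 _)
    refine ⟨fun σ τ => W σ τ + (Y0 σ τ + Y1 σ τ), ch2_add hW (ch2_add hY0c hY1), ?_⟩
    intro ρ τ
    rw [dd_add, dd_add, hY1d]
    show dd W ρ τ + (dd Y0 ρ τ + ((Z ρ τ + dd W ρ τ) + dd Y0 ρ τ)) = Z ρ τ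
    have h2 : ∀ a b c : ZMod 2, a + (b + (c + a + b)) = c := by decide
    exact h2 _ _ _

theorem stP3 : StP3 := by
  intro h1 h2 N K d hK D hD Z hZ hcy hprod
  exact bounds3 h1 h2 hK hD d Z hZ hcy hprod (by
    intro σ τ h
    by_contra hne
    have := hK.card_le _ (hZ _ _ hne).1
    omega)

end Pool.Agent.H37.KR
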