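import Pool.Agent.H37.KR.P5a
import Pool.Agent.H83.KR.P5b
import Pool.Agent.H55.KR.P5c

/-!
# Part P5: the obstruction of a closed manifold is a sum of products of cocycles
-/

set_option autoImplicit false

namespace Pool.Agent.H37.KR

open Finset MvPolynomial Pool.Agent.W555.KS Pool.Agent.Y131.KS

theorem stP5 : StP5 := by
  intro hS h1 h2 h3 N K d hK hV
  choose c α hc hα hdual hdet using fun s => h1 N K s hK.cx
  obtain ⟨C, hC⟩ := H83.KR.stP5b N K d α (fun Z hZ hp =>
    stP5a h1 h2 h3 N K d hK hV c α hc hα hdual hdet Z hZ.1 hZ.2.1 hZ.2.2 hp)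
  exact H55.KR.stP5c hS N K d α C hα hC

end Pool.Agent.H37.KR
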