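import Pool.Agent.H37.KR.P5d
import Pool.Agent.H37.KR.P3

/-!
# First half of part P5
-/

set_option autoImplicit false

namespace Pool.Agent.H37.KR

open Finset MvPolynomial Pool.Agent.W555.KS Pool.Agent.Y131.KS

variable {N : ℕ}

/-- the slant product with a cocycle is a cycle -/
theorem slant {K : Finset (Finset (Fin N))} {D p s : ℕ} (hps : p + s = D)
    {Z : Finset (Fin N) → Finset (Fin N) → ZMod 2} (hZ : Ch2 K D Z)
    (hcy : ∀ ρ τ, dd Z ρ τ = 0) {γ : Finset (Fin N) → ZMod 2} (hγ : Coc K s γ) :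
    Sp K p (fun σ => prc γ (Z σ)) ∧ ∀ ρ, bdr (fun σ => prc γ (Z σ)) ρ = 0 := by
  constructor
  · intro σ hσ
    obtain ⟨τ, -, hτ⟩ := exists_ne_zero_of_sum_ne_zero hσ
    obtain ⟨a, b, c', e⟩ := hZ σ τ (right_ne_zero_of_mul hτ)
    have h3 : τ.card = s := by
      by_contra hcon
      exact left_ne_zero_of_mul hτ (hγ.1 τ hcon)
    exact ⟨a, by omega⟩
  · intro ρ
    have e1 : bdr (fun σ => prc γ (Z σ)) ρ = ∑ τ, γ τ * bdr (fun σ => Z σ τ) ρ := by
      unfold bdr prc
      rw [sum_comm]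
      refine sum_congr rfl fun τ _ => ?_
      rw [mul_sum]
    have e2 : ∀ τ, bdr (fun σ => Z σ τ) ρ = bdr (Z ρ) τ := by
      intro τ
      have h3 := hcy ρ τ
      rw [dd_split hZ] at h3
      have h4 : ∀ a b : ZMod 2, a + b = 0 → a = b := by decide
      exact h4 _ _ h3
    rw [e1, sum_congr rfl fun τ _ => by rw [e2 τ]]
    exact prc_bdr hγ (fun τ h => (hZ _ _ h).2.1)

theorem stP5a : StP5a := by
  classical
  intro h1 h2 h3 N K d hK hVK c α hc hα hdual hdet Z hs hsupp hcy hprod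
  let Z' : Finset (Fin N) → Finset (Fin N) → ZMod 2 :=
    fun σ τ => if Disjoint σ τ ∧ σ.card + τ.card = d + 1 then Z σ τ else 0
  have hZ' : Ch2 K (d + 1) Z' := by
    intro σ τ h
    simp only [Z'] at h
    split_ifs at h with h1
    · obtain ⟨a, b⟩ := hsupp _ _ h
      exact ⟨a, b, h1.1, h1.2⟩
    · exact absurd rfl h
  have hs' : ∀ σ τ, Z' σ τ = Z' τ σ := by
    intro σ τ
    simp only [Z']
    by_cases hc : Disjoint σ τ ∧ σ.card + τ.card = d + 1
    · rw [if_pos hc, if_pos ⟨hc.1.symm, by omega⟩, hs]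
    · rw [if_neg hc, if_neg (fun h => hc ⟨h.1.symm, by omega⟩)]
  have hcy' : ∀ ρ τ, dd Z' ρ τ = 0 := by
    intro ρ τ
    by_cases hc : Disjoint ρ τ ∧ ρ.card + τ.card + 1 = d + 1
    · rw [← hcy ρ τ hc.1 hc.2]
      unfold dd
      refine sum_congr rfl fun v hv => ?_
      rw [mem_compl, mem_union, not_or] at hv
      simp only [Z']
      rw [if_pos ⟨disjoint_insert_left.2 ⟨hv.2, hc.1⟩, by
          rw [card_insert_of_notMem hv.1]
          omega⟩,
        if_pos ⟨disjoint_insert_right.2 ⟨hv.1, hc.1⟩, by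
          rw [card_insert_of_notMem hv.2]
          omega⟩]
    · by_contra hne
      obtain ⟨v, a, b, c | c⟩ := dd_ne hne
      · simp only [Z'] at c
        split_ifs at c with h1
        · apply hc
          rw [disjoint_insert_left, card_insert_of_notMem a] at h1
          exact ⟨h1.1.2, by omega⟩
        · exact c rfl
      · simp only [Z'] at c
        split_ifs at c with h1
        · apply hc
          rw [disjoint_insert_right, card_insert_of_notMem b] at h1
          exact ⟨h1.1.2, by omega⟩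
        · exact c rfl
  -- products as iterated pairings
  have hpp : ∀ β γ : Finset (Fin N) → ZMod 2, ∑ σ, ∑ τ, β σ * γ τ * Z' σ τ =
      prc β (fun σ => prc γ (Z' σ)) := by
    intro β γ
    unfold prc
    refine sum_congr rfl fun σ _ => ?_
    rw [mul_sum]
    exact sum_congr rfl fun τ _ => by ring
  have hsw : ∀ β γ : Finset (Fin N) → ZMod 2, prc β (fun σ => prc γ (Z' σ)) =
      prc γ (fun σ => prc β (Z' σ)) := by
    intro β γ
    rw [← hpp, ← hpp, sum_comm]
    refine sum_congr rfl fun σ _ => sum_congr rfl fun τ _ => ?_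
    rw [hs' τ σ]
    ring
  have hb0 : ∀ p s, p + s = d + 1 → s ≤ p → ∀ i j,
      prc (α p i) (fun σ => prc (α s j) (Z' σ)) = 0 := by
    intro p s hps hsp i j
    rw [← hprod p s hps hsp i j, ← hpp]
    unfold pr2
    refine sum_congr rfl fun σ _ => sum_congr rfl fun τ _ => ?_
    simp only [Z']
    split_ifs
    · rfl
    · rw [mul_zero]
  have hb : ∀ p s, p + s = d + 1 → ∀ i j,
      prc (α p i) (fun σ => prc (α s j) (Z' σ)) = 0 := by
    intro p s hps i j
    rcases le_total s p with h | h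
    · exact hb0 p s hps h i j
    · rw [hsw]
      exact hb0 s p (by omega) h j i
  have hall : ∀ p s, p + s = d + 1 → ∀ β γ, Coc K p β → Coc K s γ →
      ∑ σ, ∑ τ, β σ * γ τ * Z' σ τ = 0 := by
    intro p s hps β γ hβ hγ
    rw [hpp]
    have hstep : ∀ j, prc β (fun σ => prc (α s j) (Z' σ)) = 0 := by
      intro j
      obtain ⟨a1, a2⟩ := slant (K := K) hps hZ' hcy' (hα s j)
      obtain ⟨b, b1, b2⟩ := hdet p _ a1 a2 (fun i => hb p s hps i j)
      have e : (fun σ => prc (α s j) (Z' σ)) = bdr b := funext b2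
      rw [e]
      exact prc_bdr hβ (fun τ h => (b1 τ h).1)
    rw [hsw]
    obtain ⟨a1, a2⟩ := slant (K := K) (p := s) (s := p) (by omega) hZ' hcy' hβ
    obtain ⟨b, b1, b2⟩ := hdet s _ a1 a2 (fun j => by rw [hsw]; exact hstep j)
    have e : (fun σ => prc β (Z' σ)) = bdr b := funext b2
    rw [e]
    exact prc_bdr hγ (fun τ h => (b1 τ h).1)
  obtain ⟨Y, hY, hYd⟩ := h3 h1 h2 N K d hK (d + 1) (by omega) Z' hZ' hcy'
    (fun p s hps _ β γ hβ hγ => hall p s hps β γ hβ hγ)
  have h5 : ev (d + 2) (fun σ τ => Y σ τ + Y τ σ) = 0 := by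
    refine hVK (fun σ τ => Y σ τ + Y τ σ) (fun σ τ => add_comm _ _) ?_ ?_
    · intro σ τ h
      have h3 : Y σ τ ≠ 0 ∨ Y τ σ ≠ 0 := by
        by_contra hcon
        push Not at hcon
        exact h (by beta_reduce; rw [hcon.1, hcon.2, add_zero])
      rcases h3 with h3 | h3
      · exact ⟨(hY _ _ h3).1, (hY _ _ h3).2.1⟩
      · exact ⟨(hY _ _ h3).2.1, (hY _ _ h3).1⟩
    · intro ρ τ _ _
      show dd (fun σ τ => Y σ τ + Y τ σ) ρ τ = 0
      have h2 : dd (fun σ τ => Y σ τ + Y τ σ) ρ τ = dd Y ρ τ + dd Y τ ρ := by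
        unfold dd
        rw [union_comm τ ρ, ← sum_add_distrib]
        refine sum_congr rfl fun v _ => ?_
        ring
      rw [h2, hYd, hYd, hs' τ ρ]
      exact z2 _
  rw [← ev_dd] at h5
  rw [← h5]
  unfold ev
  refine sum_congr rfl fun U hU => ?_
  rw [hYd]
  simp only [Z']
  rw [if_pos ⟨disj_parts U, by rw [card_parts]; exact (mem_powersetCard.1 hU).2⟩]

end Pool.Agent.H37.KR
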