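import Pool.Agent.H37.KR.Man

/-!
# First half of part P5: the evaluation of the obstruction vanishes on the symmetric cycles on which
all products of basis cocycles vanish
-/

set_option autoImplicit false

namespace Pool.Agent.H37.KR

open Finset MvPolynomial Pool.Agent.W555.KS Pool.Agent.Y131.KS

/-- first half of P5 -/
def StP5a : Prop := StP1 → StP2 → StP3 → ∀ (N : ℕ) (K : Finset (Finset (Fin N))) (d : ℕ),
  HMan K d → VK2 K (d + 2) →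
  ∀ (c α : (s : ℕ) → Fin (betti K s) → Finset (Fin N) → ZMod 2),
    (∀ s i, Sp K s (c s i) ∧ ∀ ρ, bdr (c s i) ρ = 0) → (∀ s i, Coc K s (α s i)) →
    (∀ s i j, prc (α s i) (c s j) = if i = j then 1 else 0) →
    (∀ s x, Sp K s x → (∀ ρ, bdr x ρ = 0) → (∀ i, prc (α s i) x = 0) →
      ∃ b, Sp K (s + 1) b ∧ ∀ ρ, x ρ = bdr b ρ) →
  ∀ Z : Finset (Fin N) → Finset (Fin N) → ZMod 2,
    (∀ σ τ, Z σ τ = Z τ σ) →
    (∀ σ τ, Z σ τ ≠ 0 → σ ∈ K ∧ τ ∈ K) →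
    (∀ ρ τ : Finset (Fin N), Disjoint ρ τ → ρ.card + τ.card + 1 = d + 1 →
      ∑ v ∈ (ρ ∪ τ)ᶜ, (Z (insert v ρ) τ + Z ρ (insert v τ)) = 0) →
    (∀ p s, p + s = d + 1 → s ≤ p → ∀ i j, pr2 (d + 1) (fun σ τ => α p i σ * α s j τ) Z = 0) →
    ∑ U ∈ powersetCard (d + 1) univ, Z (evenPart U) (oddPart U) = 0

end Pool.Agent.H37.KR
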