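import Pool.Agent.H37.KR.P5d

/-!
# Second half of part P5, in two pieces
-/

set_option autoImplicit false

namespace Pool.Agent.H37.KR

open Finset MvPolynomial Pool.Agent.W555.KS Pool.Agent.Y131.KS

/-- symmetric cycles of the deleted join with `D` vertices -/
def SyC {N : ℕ} (K : Finset (Finset (Fin N))) (D : ℕ)
    (Z : Finset (Fin N) → Finset (Fin N) → ZMod 2) : Prop :=
  (∀ σ τ, Z σ τ = Z τ σ) ∧ (∀ σ τ, Z σ τ ≠ 0 → σ ∈ K ∧ τ ∈ K) ∧
    ∀ ρ τ : Finset (Fin N), Disjoint ρ τ → ρ.card + τ.card + 1 = D →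
      ∑ v ∈ (ρ ∪ τ)ᶜ, (Z (insert v ρ) τ + Z ρ (insert v τ)) = 0

/-- the evaluation is a combination of the products -/
def Cmb {N : ℕ} (K : Finset (Finset (Fin N))) (d : ℕ)
    (α : (s : ℕ) → Fin (betti K s) → Finset (Fin N) → ZMod 2)
    (C : (p s : ℕ) → Fin (betti K p) → Fin (betti K s) → ZMod 2) : Prop :=
  ∀ Z, SyC K (d + 1) Z → ∑ U ∈ powersetCard (d + 1) univ, Z (evenPart U) (oddPart U) =
    ∑ s ∈ range (d + 2), if 2 * s ≤ d + 1 then
      ∑ i, ∑ j, C (d + 1 - s) s i j *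
        pr2 (d + 1) (fun σ τ => α (d + 1 - s) i σ * α s j τ) Z else 0

/-- linear algebra: `mem_span_of_iInf_ker_le_ker` on the space of symmetric cycles -/
def StP5b : Prop := ∀ (N : ℕ) (K : Finset (Finset (Fin N))) (d : ℕ)
  (α : (s : ℕ) → Fin (betti K s) → Finset (Fin N) → ZMod 2),
  (∀ Z, SyC K (d + 1) Z →
    (∀ p s, p + s = d + 1 → s ≤ p → ∀ i j,
      pr2 (d + 1) (fun σ τ => α p i σ * α s j τ) Z = 0) →
    ∑ U ∈ powersetCard (d + 1) univ, Z (evenPart U) (oddPart U) = 0) →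
  ∃ C, Cmb K d α C

/-- assembly of the products: for `s < p = d + 1 - s` the products
`α p i × ∑ j, C p s i j • α s j`, `i < betti K p`; for `2 s = d + 1` the symplectic form -/
def StP5c : Prop := StSym → ∀ (N : ℕ) (K : Finset (Finset (Fin N))) (d : ℕ)
  (α : (s : ℕ) → Fin (betti K s) → Finset (Fin N) → ZMod 2)
  (C : (p s : ℕ) → Fin (betti K p) → Fin (betti K s) → ZMod 2),
  (∀ s i, Coc K s (α s i)) → Cmb K d α C →
  ∃ (m : ℕ) (b : Fin m → ℕ) (β γ : Fin m → Finset (Fin N) → ZMod 2),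
    Hyp K d b β γ ∧ ∀ r, d < 2 * r → nf d b r ≤ betti K r

end Pool.Agent.H37.KR
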