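import Pool.Agent.H37.KR.P5
import Pool.Agent.H55.KR.P6

/-!
# Manifolds: the number of factors is at most the minimum of two Betti numbers
-/

set_option autoImplicit false

namespace Pool.Agent.H37.KR

open Finset MvPolynomial Pool.Agent.W555.KS Pool.Agent.Y131.KS Pool.Agent.H55.KR

variable {N : ℕ}

/-- the products for one `s`: `p + s = d + 1` -/
theorem fam_min (hS : StSym) (K : Finset (Finset (Fin N))) (d p s : ℕ) (hps : p + s = d + 1)
    (hsp : s ≤ p)
    (α : (s : ℕ) → Fin (betti K s) → Finset (Fin N) → ZMod 2)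
    (C : Fin (betti K p) → Fin (betti K s) → ZMod 2) (hα : ∀ s i, Coc K s (α s i)) :
    ∃ (m : ℕ) (β γ : Fin m → Finset (Fin N) → ZMod 2), (∀ t, Coc K p (β t)) ∧
      (∀ t, Coc K s (γ t)) ∧ m ≤ min (betti K p) (betti K s) ∧ (p = s → 2 * m ≤ betti K p) ∧
      ∀ Z, SyC K (d + 1) Z → ∑ t, pr2 (d + 1) (fun σ τ => β t σ * γ t τ) Z =
        ∑ i, ∑ j, C i j * pr2 (d + 1) (fun σ τ => α p i σ * α s j τ) Z := by
  classical
  rcases Nat.lt_or_ge s p with hlt | hge
  · rcases Nat.le_total (betti K p) (betti K s) with hle | hle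
    · refine ⟨betti K p, α p, fun i τ => ∑ j, C i j * α s j τ, hα p,
        fun i => coc_comb (C i) (α s) (hα s), le_min le_rfl hle, fun h => by omega,
        fun Z hZ => ?_⟩
      refine sum_congr rfl fun i _ => ?_
      have e : (fun σ τ : Finset (Fin N) => α p i σ * ∑ j, C i j * α s j τ) =
          fun σ τ => ∑ j, C i j * (α p i σ * α s j τ) := by
        funext σ τ
        rw [mul_sum]
        refine sum_congr rfl fun j _ => ?_
        ring
      rw [e, pr2_fsum]
      refine sum_congr rfl fun j _ => ?_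
      rw [pr2_mul]
    · refine ⟨betti K s, fun j σ => ∑ i, C i j * α p i σ, α s,
        fun j => coc_comb (fun i => C i j) (α p) (hα p), hα s, le_min hle le_rfl,
        fun h => by omega, fun Z hZ => ?_⟩
      rw [sum_comm]
      refine sum_congr rfl fun j _ => ?_
      have e : (fun σ τ : Finset (Fin N) => (∑ i, C i j * α p i σ) * α s j τ) =
          fun σ τ => ∑ i, C i j * (α p i σ * α s j τ) := by
        funext σ τ
        rw [sum_mul]
        refine sum_congr rfl fun i _ => ?_
        ring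
      rw [e, pr2_fsum]
      refine sum_congr rfl fun i _ => ?_
      rw [pr2_mul]
  · obtain rfl : p = s := le_antisymm hge hsp
    obtain ⟨m, X, Y, hm, hXY⟩ := hS (betti K p) (fun i j => if i = j then 0 else C i j + C j i)
      (fun i => if_pos rfl) (fun i j => by
        by_cases h : i = j
        · rw [if_pos h, if_pos h.symm]
        · rw [if_neg h, if_neg (Ne.symm h), add_comm])
    refine ⟨m, fun t σ => ∑ i, X t i * α p i σ, fun t τ => ∑ j, Y t j * α p j τ,
      fun t => coc_comb (X t) (α p) (hα p), fun t => coc_comb (Y t) (α p) (hα p),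
      le_min (by omega) (by omega),
      fun _ => hm, fun Z hZ => ?_⟩
    have e1 : ∀ t, pr2 (d + 1) (fun σ τ => (∑ i, X t i * α p i σ) * ∑ j, Y t j * α p j τ) Z =
        ∑ i, ∑ j, X t i * Y t j * pr2 (d + 1) (fun σ τ => α p i σ * α p j τ) Z :=
      fun t => pr2_cross (d + 1) (X t) (Y t) (α p) (α p) Z
    rw [sum_congr rfl fun t _ => e1 t, sum_comm]
    have e2 : ∑ i, ∑ j, ((∑ t, X t i * Y t j) + C i j) *
        pr2 (d + 1) (fun σ τ => α p i σ * α p j τ) Z = 0 := by
      refine sum_symm (fun i j => (∑ t, X t i * Y t j) + C i j)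
        (fun i j => pr2 (d + 1) (fun σ τ => α p i σ * α p j τ) Z) ?_
        (fun i j => pr2_symm (d + 1) (α p i) (α p j) Z hZ.1)
        (fun i => pr2_diag (d + 1) (Nat.succ_pos d) (α p i) Z hZ.1)
      intro i j
      by_cases h : i = j
      · subst h; rfl
      · have h1 := hXY i j
        rw [if_neg h, sum_add_distrib] at h1
        have h2 : ∑ t, Y t i * X t j = ∑ t, X t j * Y t i :=
          sum_congr rfl fun t _ => mul_comm _ _
        rw [h2] at h1
        have h3 : ∀ a b c d' : ZMod 2, a + b = c + d' → c + a = d' + b := by decide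
        exact h3 _ _ _ _ h1
    have e3 : ∀ a b : ZMod 2, a + b = 0 → a = b := by decide
    apply e3
    rw [← e2, ← sum_add_distrib]
    refine sum_congr rfl fun i _ => ?_
    rw [sum_comm, ← sum_add_distrib]
    refine sum_congr rfl fun j _ => ?_
    rw [add_mul, sum_mul]

/-- `StP5c` with the minimum of two Betti numbers -/
theorem stP5cm (hS : StSym) (N : ℕ) (K : Finset (Finset (Fin N))) (d : ℕ)
    (α : (s : ℕ) → Fin (betti K s) → Finset (Fin N) → ZMod 2)
    (C : (p s : ℕ) → Fin (betti K p) → Fin (betti K s) → ZMod 2)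
    (hα : ∀ s i, Coc K s (α s i)) (hC : Cmb K d α C) :
    ∃ (m : ℕ) (b : Fin m → ℕ) (β γ : Fin m → Finset (Fin N) → ZMod 2),
      Hyp K d b β γ ∧ ∀ r, d < 2 * r → nf d b r ≤ min (betti K r) (betti K (d + 1 - r)) := by
  classical
  -- the families for one `s`
  have key : ∀ s : Fin (d + 2), ∃ (m : ℕ) (β γ : Fin m → Finset (Fin N) → ZMod 2),
      (∀ t, Coc K (d + 1 - s) (β t)) ∧ (∀ t, Coc K s (γ t)) ∧
      (2 * (s : ℕ) < d + 1 → m ≤ min (betti K (d + 1 - s)) (betti K s)) ∧
      (2 * (s : ℕ) = d + 1 → 2 * m ≤ betti K (d + 1 - s)) ∧ (d + 1 < 2 * (s : ℕ) → m = 0) ∧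
      ∀ Z, SyC K (d + 1) Z → ∑ t, pr2 (d + 1) (fun σ τ => β t σ * γ t τ) Z =
        if 2 * (s : ℕ) ≤ d + 1 then ∑ i, ∑ j, C (d + 1 - s) s i j *
          pr2 (d + 1) (fun σ τ => α (d + 1 - s) i σ * α s j τ) Z else 0 := by
    intro s
    have hs := s.2
    by_cases h : 2 * (s : ℕ) ≤ d + 1
    · obtain ⟨m, β, γ, h1, h2, h3, h4, h5⟩ := fam_min hS K d (d + 1 - s) s (by omega) (by omega) α
        (C (d + 1 - s) s) hα
      refine ⟨m, β, γ, h1, h2, fun _ => h3, fun h6 => h4 (by omega), fun h6 => by omega,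
        fun Z hZ => ?_⟩
      rw [if_pos h]
      exact h5 Z hZ
    · refine ⟨0, Fin.elim0, Fin.elim0, fun t => t.elim0, fun t => t.elim0, fun h6 => by omega,
        fun h6 => by omega, fun _ => rfl, fun Z hZ => ?_⟩
      rw [if_neg h]
      exact sum_eq_zero fun t _ => t.elim0
  choose m β γ h1 h2 h3 h4 h5 h6 using key
  let ι := Σ s : Fin (d + 2), Fin (m s)
  let e : ι ≃ Fin (Fintype.card ι) := Fintype.equivFin ι
  have hlt : ∀ x : ι, 2 * (x.1 : ℕ) ≤ d + 1 := by
    rintro ⟨s, t⟩
    by_contra hcon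
    have := h5 s (by simp only at hcon; omega)
    have h7 := t.2
    omega
  refine ⟨Fintype.card ι, fun j => d + 1 - ((e.symm j).1 : ℕ),
    fun j => β (e.symm j).1 (e.symm j).2, fun j => γ (e.symm j).1 (e.symm j).2,
    ⟨fun j => ?_, fun j => h1 _ _, fun j => ?_, ?_⟩, ?_⟩
  · have := hlt (e.symm j)
    beta_reduce
    omega
  · have h7 : d + 1 - (d + 1 - ((e.symm j).1 : ℕ)) = ((e.symm j).1 : ℕ) := by
      have := (e.symm j).1.2
      omega
    beta_reduce
    rw [h7]
    exact h2 _ _
  · intro Z hs hsupp hcl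
    have hZ : SyC K (d + 1) Z := ⟨hs, hsupp, hcl⟩
    rw [hC Z hZ, pr2_fsum, sum_range]
    rw [sum_congr rfl fun s _ => (h6 s Z hZ).symm]
    have e1 : ∑ j, pr2 (d + 1) (fun σ τ => β (e.symm j).1 (e.symm j).2 σ *
        γ (e.symm j).1 (e.symm j).2 τ) Z =
        ∑ x : ι, pr2 (d + 1) (fun σ τ => β x.1 x.2 σ * γ x.1 x.2 τ) Z :=
      Equiv.sum_comp e.symm (fun x : ι => pr2 (d + 1) (fun σ τ => β x.1 x.2 σ * γ x.1 x.2 τ) Z)
    rw [e1, Fintype.sum_sigma]
  · intro r hr
    unfold nf
    have c1 : ∀ (P : ι → Prop) [DecidablePred P], (univ.filter (fun j => P (e.symm j))).card =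
        (univ.filter P).card := by
      intro P _
      refine card_bij (fun j _ => e.symm j) ?_ ?_ ?_
      · intro j hj
        exact mem_filter.2 ⟨mem_univ _, (mem_filter.1 hj).2⟩
      · intro i _ j _ hij
        exact e.symm.injective hij
      · intro x hx
        refine ⟨e x, mem_filter.2 ⟨mem_univ _, ?_⟩, e.symm_apply_apply x⟩
        rw [e.symm_apply_apply]
        exact (mem_filter.1 hx).2
    have c2 := c1 (fun x => d + 1 - (x.1 : ℕ) = r)
    have c3 := c1 (fun x => d + 1 - (d + 1 - (x.1 : ℕ)) = r)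
    refine (le_of_eq (congrArg₂ (· + ·) c2 c3)).trans ?_
    rcases Nat.lt_or_ge (d + 1) r with hbig | hle
    · have d1 : univ.filter (fun x : ι => d + 1 - (x.1 : ℕ) = r) = ∅ :=
        filter_eq_empty_iff.2 fun x _ => by omega
      have d2 : univ.filter (fun x : ι => d + 1 - (d + 1 - (x.1 : ℕ)) = r) = ∅ :=
        filter_eq_empty_iff.2 fun x _ => by omega
      rw [d1, d2, card_empty]
      exact Nat.zero_le _
    · have d1 : univ.filter (fun x : ι => d + 1 - (x.1 : ℕ) = r) =
          univ.filter (fun x : ι => x.1 = ⟨d + 1 - r, by omega⟩) := by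
        refine filter_congr fun x _ => ?_
        have := x.1.2
        rw [Fin.ext_iff]
        simp only
        omega
      have d2 : univ.filter (fun x : ι => d + 1 - (d + 1 - (x.1 : ℕ)) = r) =
          univ.filter (fun x : ι => x.1 = ⟨r, by omega⟩) := by
        refine filter_congr fun x _ => ?_
        have := x.1.2
        rw [Fin.ext_iff]
        simp only
        omega
      have d3 := card_fib m ⟨d + 1 - r, by omega⟩
      have d4 := card_fib m ⟨r, by omega⟩
      rw [d1, d2]
      refine (Nat.add_le_add d3.le d4.le).trans ?_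
      rcases Nat.lt_or_ge (d + 1) (2 * r) with h8 | h8
      · have h9 := h5 ⟨r, by omega⟩ (by simp only; omega)
        have h10 := h3 ⟨d + 1 - r, by omega⟩ (by simp only; omega)
        have h11 : d + 1 - (d + 1 - r) = r := by omega
        simp only at h10
        rw [h11] at h10
        rw [h9, add_zero]
        exact h10
      · have h8' : 2 * r = d + 1 := by omega
        have h9 := h4 ⟨r, by omega⟩ h8'
        have h11 : d + 1 - r = r := by omega
        have h12 : (⟨d + 1 - r, by omega⟩ : Fin (d + 2)) = ⟨r, by omega⟩ := Fin.ext h11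
        rw [h12]
        simp only at h9
        rw [h11] at h9 ⊢
        rw [min_self]
        omega
/-- `StP5` with the minimum of two Betti numbers -/
theorem man_min (hS : StSym) (h1 : StP1) (h2 : StP2) (h3 : StP3) (N : ℕ)
    (K : Finset (Finset (Fin N))) (d : ℕ) (hK : HMan K d) (hV : VK2 K (d + 2)) :
    ∃ (m : ℕ) (b : Fin m → ℕ) (β γ : Fin m → Finset (Fin N) → ZMod 2),
      Hyp K d b β γ ∧ ∀ r, d < 2 * r → nf d b r ≤ min (betti K r) (betti K (d + 1 - r)) := by
  choose c α hc hα hdual hdet using fun s => h1 N K s hK.cx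
  obtain ⟨C, hC⟩ := H83.KR.stP5b N K d α (fun Z hZ hp =>
    stP5a h1 h2 h3 N K d hK hV c α hc hα hdual hdet Z hZ.1 hZ.2.1 hZ.2.2 hp)
  exact stP5cm hS N K d α C hα hC

/-- subcomplexes of manifolds -/
theorem man_sub (hS : StSym) (h1 : StP1) (h2 : StP2) (h3 : StP3) (N n : ℕ)
    (K : Finset (Finset (Fin N))) (d : ℕ) (L : Finset (Finset (Fin n))) (f : Fin n ↪ Fin N)
    (hK : HMan K d) (hO : OddMap K (d + 1)) (hf : ∀ σ ∈ L, σ.map f ∈ K) :
    ∃ (m : ℕ) (b : Fin m → ℕ) (β α : Fin m → Finset (Fin n) → ZMod 2),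
      Hyp L d b β α ∧ ∀ r, d < 2 * r → nf d b r ≤ min (betti K r) (betti K (d + 1 - r)) := by
  classical
  have hnN : n ≤ N := by
    have := Fintype.card_le_of_embedding f
    simpa using this
  set g : Fin n ↪ Fin N := Fin.castLEEmb hnN with hg
  have hgm : StrictMono g := fun i j hij => by
    change Fin.castLE hnN i < Fin.castLE hnN j
    exact Fin.strictMono_castLE hnN hij
  -- a permutation with `π ∘ f = g`
  obtain ⟨π, hπ⟩ : ∃ π : Equiv.Perm (Fin N), ∀ i, π (f i) = g i := by
    let E : {x // x ∈ Set.range f} ≃ {x // x ∈ Set.range g} :=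
      (Equiv.ofInjective f f.injective).symm.trans (Equiv.ofInjective g g.injective)
    refine ⟨E.extendSubtype, fun i => ?_⟩
    rw [Equiv.extendSubtype_apply_of_mem E (f i) ⟨i, rfl⟩]
    change ((Equiv.ofInjective g g.injective) ((Equiv.ofInjective f f.injective).symm
      ⟨f i, ⟨i, rfl⟩⟩) : Fin N) = g i
    have : (Equiv.ofInjective f f.injective).symm ⟨f i, ⟨i, rfl⟩⟩ = i := by
      rw [Equiv.symm_apply_eq]
      rfl
    rw [this]
    rfl
  obtain ⟨m, b, β, α, hh, hb⟩ := man_min hS h1 h2 h3 N (im π.toEmbedding K) d (hman_perm hK)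
    (vk2_of_odd (im_cx hK.cx) (odd_perm hO))
  refine ⟨m, b, _, _, hyp_mono hgm ?_ hh, fun r hr => ?_⟩
  · intro σ hσ
    rw [mem_im]
    refine ⟨σ.map f, hf σ hσ, ?_⟩
    rw [map_map]
    congr 1
    ext i
    exact congrArg Fin.val (hπ i)
  · rw [← betti_perm π K r, ← betti_perm π K (d + 1 - r)]
    exact hb r hr

end Pool.Agent.H37.KR
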