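import Pool.Agent.H37.KR.Fin
import Pool.Agent.H37.KR.Lin

/-!
# The Lefschetz type theorem with exceptional elements
-/

set_option autoImplicit false

namespace Pool.Agent.H37.KR

open Finset MvPolynomial Pool.Agent.W555.KS Pool.Agent.Y131.KS Pool.Agent.W646.KS
open Pool.Agent.W500.KS (lin d0 d0_apply coeff_top_lin sum_sq_zero)
open Pool.Agent.W977.KS
open Pool.Agent.W460.KS (halfMon_castSucc evenFun_castSucc)

section

variable {k R : Type} [Field k] [CharP k 2] [CommRing R] [Algebra k R] {n d m : ℕ}

theorem pat_zero (hexp : StExp) {L : Finset (Finset (Fin n))} {b : Fin m → ℕ}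
    {β α : Fin m → Finset (Fin n) → ZMod 2} (hH : Hyp L d b β α) (r : ℕ) (hr : d < 2 * r)
    (a : Fin (d + 1) → Fin n → k) (x : Fin n → R) (M : R →ₗ[k] k) (ω : R)
    (hface : ∀ σ, σ ∉ L → ∏ v ∈ σ, x v = 0)
    (ha : ∀ i : Fin d, ∑ v, a i.castSucc v • x v = 0)
    (hω : ω = ∑ v, a (Fin.last d) v • x v) (hpow : ω ^ (2 * r - d) = 0)
    (hkill : ∀ γ : Finset (Fin n) → ZMod 2,
      ((∃ j, b j = r ∧ γ = β j) ∨ (∃ j, d + 1 - b j = r ∧ γ = α j)) →
      ∀ μ : Fin (d + 1) →₀ ℕ, (∀ i, μ i ≤ 1) → μ (Fin.last d) = 0 →
      M (∑ σ ∈ powersetCard r (univ : Finset (Fin n)),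
        (κ k (γ σ) * coeff μ (∏ v ∈ σ, lin a v)) • ∏ v ∈ σ, x v) = 0) :
    ∑ U ∈ powersetCard (d + 1) univ,
      bra a U * M (ω ^ (r - (evenPart U).card) * ∏ v ∈ evenPart U, x v) *
        M (ω ^ (r - (oddPart U).card) * ∏ v ∈ oddPart U, x v) = 0 := by
  obtain ⟨h1, h2, h3, h4⟩ := hH
  rw [t1r hexp r h4 a x M ω hface ha hω (by omega) hpow]
  have e1 : (∑ σ : Finset (Fin n), ∑ τ : Finset (Fin n),
      if Disjoint σ τ ∧ σ.card + τ.card = d + 1 then
      κ k (∑ j, β j σ * α j τ) * Zc r a x M ω σ τ else 0) =
      ∑ j : Fin m, ∑ σ : Finset (Fin n), ∑ τ : Finset (Fin n),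
        if Disjoint σ τ ∧ σ.card + τ.card = d + 1 then
        κ k (β j σ * α j τ) * Zc r a x M ω σ τ else 0 := by
    rw [Finset.sum_comm (s := (univ : Finset (Fin m)))]
    refine Finset.sum_congr rfl fun σ _ => ?_
    rw [Finset.sum_comm (s := (univ : Finset (Fin m)))]
    refine Finset.sum_congr rfl fun τ _ => ?_
    split_ifs with h
    · rw [map_sum, Finset.sum_mul]
    · rw [Finset.sum_const_zero]
  rw [e1]
  refine Finset.sum_eq_zero fun j _ => ?_
  have hj := h1 j
  refine pair_zero r a x M ω (β j) (α j) (b j) (d + 1 - b j) (by omega) (h2 j).1 (h3 j).1 ?_ ?_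
  · rcases lt_trichotomy (b j) r with h | h | h
    · exact Or.inr (good_coc r (b j) h _ (h2 j) a x M ω hface ha hω)
    · refine Or.inr ?_
      rw [h]
      exact good_kill r _ a x M ω (hkill _ (Or.inl ⟨j, h, rfl⟩))
    · exact Or.inl h
  · rcases lt_trichotomy (d + 1 - b j) r with h | h | h
    · exact Or.inr (good_coc r (d + 1 - b j) h _ (h3 j) a x M ω hface ha hω)
    · refine Or.inr ?_
      rw [h]
      exact good_kill r _ a x M ω (hkill _ (Or.inr ⟨j, h, rfl⟩))
    · exact Or.inl h

end

/-! ### the cone arguments -/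

section C

variable {n d : ℕ} {R : Type} [CommRing R] [Algebra (Kf (d + 1) n) R]

theorem two_R (h : (2 : Kf (d + 1) n) = 0) : (2 : R) = 0 := by
  have h4 := congrArg (algebraMap (Kf (d + 1) n) R) h
  rw [map_zero, map_ofNat] at h4
  exact h4

/-- one cone -/
theorem key1 (hexp : StExp) (halg : StAlg) (hind : StInd) (g : ℕ) (hg : d + 1 + 1 = 2 * g)
    (L : Finset (Finset (Fin n)))
    {c : Finset (Fin (n + 1)) → Finset (Fin (n + 1)) → ZMod 2}
    (hTr : TrV (coneCx L) (d + 1 + 1) c)
    (hc : ∀ σ τ : Finset (Fin (n + 1)), Disjoint σ τ → σ.card = g → τ.card = g → c σ τ = 0)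
    (x : Fin n → R)
    (hface : ∀ σ, σ ∉ L → ∏ v ∈ σ, x v = 0)
    (hrow : ∀ i : Fin (d + 1), ∑ v, gen (d + 1) n i v • x v = 0)
    (M : R →ₗ[Kf (d + 1) n] Kf (d + 1) n) (v0 : Fin n) (h : Fin (d + 1) → Fin n)
    (hh : EvenFun (Fin.snoc (α := fun _ => Fin n) h v0)) :
    M (halfMon x (Fin.snoc (α := fun _ => Fin n) h v0)) = 0 := by
  classical
  set k := Kf (d + 1) n with hk
  let x' : Fin (n + 1) → R := Fin.snoc (α := fun _ => R) x (x v0)
  let a : Fin (d + 1 + 1) → Fin (n + 1) → k :=
    Fin.snoc (α := fun _ => Fin (n + 1) → k)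
      (fun i => Fin.snoc (α := fun _ => k) (gen (d + 1) n i) 0)
      (Fin.snoc (α := fun _ => k) (fun v => if v = v0 then 1 else 0) 1)
  have h2 : (2 : R) = 0 := two_R (d := d) (n := n) CharTwo.two_eq_zero
  have e1 := t1bal hexp halg g hTr hg hc a x' M ?_ ?_
  · -- the identity
    have e2 : ∀ g : Fin (d + 1 + 1) → Fin (n + 1), EvenFun g →
        (∏ i, a i (g i)) * M (halfMon x' g) ^ 2 ≠ 0 →
        ∃ h : Fin (d + 1) → Fin n,
          g = fun i => ((Fin.snoc (α := fun _ => Fin n) h v0 : Fin (d + 1 + 1) → Fin n) i).castSucc := by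
      intro g hg hne
      have h3 : ∏ i, a i (g i) ≠ 0 := left_ne_zero_of_mul hne
      rw [Finset.prod_ne_zero_iff] at h3
      have h4 : ∀ i : Fin (d + 1), g i.castSucc ≠ Fin.last n := by
        intro i hi
        apply h3 i.castSucc (Finset.mem_univ _)
        rw [hi]
        simp only [a, Fin.snoc_castSucc, Fin.snoc_last]
      have h5 : g (Fin.last _) ≠ Fin.last n := by
        intro hl
        have h6 : fib g (Fin.last n) = 1 := by
          unfold fib
          rw [Finset.card_eq_one]
          refine ⟨Fin.last _, ?_⟩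
          ext i
          simp only [Finset.mem_filter, Finset.mem_univ, true_and, Finset.mem_singleton]
          constructor
          · intro hi
            refine Fin.lastCases (motive := fun i => g i = Fin.last n → i = Fin.last _) ?_ ?_ i hi
            · intro _; rfl
            · intro j hj
              exact absurd hj (h4 j)
          · rintro rfl
            exact hl
        have h7 := hg (Fin.last n)
        rw [h6] at h7
        exact absurd h7 (by decide)
      have h8 : g (Fin.last _) = v0.castSucc := by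
        obtain ⟨w, hw⟩ := Fin.exists_castSucc_eq.mpr h5
        have h9 := h3 (Fin.last _) (Finset.mem_univ _)
        rw [← hw] at h9
        simp only [a, Fin.snoc_last, Fin.snoc_castSucc] at h9
        have h10 : w = v0 := by
          by_contra hne
          rw [if_neg hne] at h9
          exact h9 rfl
        rw [← hw, h10]
      refine ⟨fun i => (g i.castSucc).castPred (h4 i), ?_⟩
      funext i
      refine Fin.lastCases ?_ (fun j => ?_) i
      · rw [Fin.snoc_last, h8]
      · rw [Fin.snoc_castSucc, Fin.castSucc_castPred]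
    let E : (Fin (d + 1) → Fin n) → (Fin (d + 1 + 1) → Fin (n + 1)) := fun h i =>
      ((Fin.snoc (α := fun _ => Fin n) h v0 : Fin (d + 1 + 1) → Fin n) i).castSucc
    have hEinj : Function.Injective E := by
      intro h h' hhh
      funext i
      have := congrFun hhh i.castSucc
      simp only [E, Fin.snoc_castSucc] at this
      exact Fin.castSucc_injective _ this
    let S0 : Finset (Fin (d + 1) → Fin n) :=
      univ.filter fun h => EvenFun (Fin.snoc (α := fun _ => Fin n) h v0)
    have e3 : ∑ g ∈ (univ : Finset (Fin (d + 1 + 1) → Fin (n + 1))).filter EvenFun,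
        (∏ i, a i (g i)) * M (halfMon x' g) ^ 2 =
        ∑ h ∈ S0, (∏ i, gen (d + 1) n i (h i)) *
          M (halfMon x (Fin.snoc (α := fun _ => Fin n) h v0)) ^ 2 := by
      symm
      have e4 : ∑ h ∈ S0, (∏ i, gen (d + 1) n i (h i)) *
          M (halfMon x (Fin.snoc (α := fun _ => Fin n) h v0)) ^ 2 =
          ∑ g ∈ S0.image E, (∏ i, a i (g i)) * M (halfMon x' g) ^ 2 := by
        rw [Finset.sum_image fun _ _ _ _ hh => hEinj hh]
        refine Finset.sum_congr rfl fun h _ => ?_
        congr 1
        · rw [Fin.prod_univ_castSucc (n := d + 1)]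
          simp only [a, E, Fin.snoc_castSucc, Fin.snoc_last, if_true, mul_one]
        · congr 2
          exact (halfMon_castSucc x (x v0) _).symm
      rw [e4]
      refine Finset.sum_subset ?_ ?_
      · intro g hg
        rw [Finset.mem_image] at hg
        obtain ⟨h, hh, rfl⟩ := hg
        rw [Finset.mem_filter]
        refine ⟨Finset.mem_univ _, ?_⟩
        exact (evenFun_castSucc _).mpr (Finset.mem_filter.mp hh).2
      · intro g hg hgn
        by_contra hne
        rw [Finset.mem_filter] at hg
        obtain ⟨h, hh⟩ := e2 g hg.2 hne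
        apply hgn
        rw [Finset.mem_image]
        refine ⟨h, ?_, hh.symm⟩
        rw [Finset.mem_filter]
        refine ⟨Finset.mem_univ _, ?_⟩
        rw [← evenFun_castSucc]
        have := hg.2
        rw [hh] at this
        exact this
    rw [e3] at e1
    exact indep hind (fun i : Fin (d + 1) => i) (fun _ _ h => h) S0
      (fun h => M (halfMon x (Fin.snoc (α := fun _ => Fin n) h v0))) e1 h
      (Finset.mem_filter.mpr ⟨Finset.mem_univ _, hh⟩)
  · -- faces
    intro σ hσ
    have h3 : (univ.filter (fun i : Fin n => i.castSucc ∈ σ)) ∉ L := by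
      intro h4
      exact hσ (Finset.mem_filter.mpr ⟨Finset.mem_univ _, h4⟩)
    have h4 := hface _ h3
    have h5 : (univ.filter (fun i : Fin n => i.castSucc ∈ σ)).map Fin.castSuccEmb ⊆ σ := by
      intro w hw
      rw [Finset.mem_map] at hw
      obtain ⟨i, hi, rfl⟩ := hw
      exact (Finset.mem_filter.mp hi).2
    rw [← Finset.prod_sdiff h5, Finset.prod_map]
    have h6 : ∏ i ∈ univ.filter (fun i : Fin n => i.castSucc ∈ σ), x' (Fin.castSuccEmb i) = 0 := by
      rw [← h4]
      refine Finset.prod_congr rfl fun i _ => ?_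
      simp only [x', Fin.castSuccEmb_apply, Fin.snoc_castSucc]
    rw [h6, mul_zero]
  · -- rows
    intro i
    refine Fin.lastCases ?_ (fun i => ?_) i
    · rw [Fin.sum_univ_castSucc]
      simp only [a, x', Fin.snoc_castSucc, Fin.snoc_last, ite_smul, one_smul, zero_smul,
        Finset.sum_ite_eq', Finset.mem_univ, if_true]
      rw [← two_mul, h2, zero_mul]
    · rw [Fin.sum_univ_castSucc]
      simp only [a, x', Fin.snoc_castSucc, Fin.snoc_last, zero_smul, add_zero]
      exact hrow i

/-- two cones -/
theorem key2 (hexp : StExp) (halg : StAlg) (hind : StInd) (g : ℕ) (hg : d + 1 + 1 + 1 = 2 * g)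
    (L : Finset (Finset (Fin n)))
    {c : Finset (Fin (n + 1 + 1)) → Finset (Fin (n + 1 + 1)) → ZMod 2}
    (hTr : TrV (coneCx (coneCx L)) (d + 1 + 1 + 1) c)
    (hc : ∀ σ τ : Finset (Fin (n + 1 + 1)), Disjoint σ τ → σ.card = g → τ.card = g → c σ τ = 0)
    (x : Fin n → R)
    (hface : ∀ σ, σ ∉ L → ∏ v ∈ σ, x v = 0)
    (hrow : ∀ i : Fin (d + 1), ∑ v, gen (d + 1) n i v • x v = 0)
    (M : R →ₗ[Kf (d + 1) n] Kf (d + 1) n) (v0 v1 : Fin n) (h : Fin (d + 1) → Fin n)
    (hh : EvenFun (Fin.snoc (α := fun _ => Fin n) (Fin.snoc (α := fun _ => Fin n) h v0) v1)) :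
    M (halfMon x (Fin.snoc (α := fun _ => Fin n) (Fin.snoc (α := fun _ => Fin n) h v0) v1)) = 0 := by
  classical
  set k := Kf (d + 1) n with hk
  let x' : Fin (n + 1) → R := Fin.snoc (α := fun _ => R) x (x v0)
  let x'' : Fin (n + 1 + 1) → R := Fin.snoc (α := fun _ => R) x' (x v1)
  let a : Fin (d + 1 + 1 + 1) → Fin (n + 1 + 1) → k :=
    Fin.snoc (α := fun _ => Fin (n + 1 + 1) → k)
      (Fin.snoc (α := fun _ => Fin (n + 1 + 1) → k)
        (fun i => Fin.snoc (α := fun _ => k) (Fin.snoc (α := fun _ => k) (gen (d + 1) n i) 0) 0)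
        (Fin.snoc (α := fun _ => k)
          (Fin.snoc (α := fun _ => k) (fun v => if v = v0 then 1 else 0) 1) 0))
      (Fin.snoc (α := fun _ => k)
        (Fin.snoc (α := fun _ => k) (fun v => if v = v1 then 1 else 0) 0) 1)
  have h2 : (2 : R) = 0 := two_R (d := d) (n := n) CharTwo.two_eq_zero
  have e1 := t1bal hexp halg g hTr hg hc a x'' M ?_ ?_
  · -- the identity
    let E : (Fin (d + 1) → Fin n) → (Fin (d + 1 + 1 + 1) → Fin (n + 1 + 1)) := fun h i =>
      (((Fin.snoc (α := fun _ => Fin n) (Fin.snoc (α := fun _ => Fin n) h v0) v1 :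
        Fin (d + 1 + 1 + 1) → Fin n) i).castSucc).castSucc
    have e2 : ∀ g : Fin (d + 1 + 1 + 1) → Fin (n + 1 + 1), EvenFun g →
        (∏ i, a i (g i)) * M (halfMon x'' g) ^ 2 ≠ 0 → ∃ h, g = E h := by
      intro g hg hne
      have h3 : ∏ i, a i (g i) ≠ 0 := left_ne_zero_of_mul hne
      rw [Finset.prod_ne_zero_iff] at h3
      -- the last vertex is only in the last row
      have h4 : ∀ i : Fin (d + 1 + 1), g i.castSucc ≠ Fin.last (n + 1) := by
        intro i hi
        apply h3 i.castSucc (Finset.mem_univ _)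
        rw [hi]
        refine Fin.lastCases ?_ (fun j => ?_) i
        · simp only [a, Fin.snoc_castSucc, Fin.snoc_last]
        · simp only [a, Fin.snoc_castSucc, Fin.snoc_last]
      have h5 : g (Fin.last _) ≠ Fin.last (n + 1) := by
        intro hl
        have h6 : fib g (Fin.last (n + 1)) = 1 := by
          unfold fib
          rw [Finset.card_eq_one]
          refine ⟨Fin.last _, ?_⟩
          ext i
          simp only [Finset.mem_filter, Finset.mem_univ, true_and, Finset.mem_singleton]
          constructor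
          · intro hi
            refine Fin.lastCases (motive := fun i => g i = Fin.last (n + 1) → i = Fin.last _)
              ?_ ?_ i hi
            · intro _; rfl
            · intro j hj
              exact absurd hj (h4 j)
          · rintro rfl
            exact hl
        have h7 := hg (Fin.last (n + 1))
        rw [h6] at h7
        exact absurd h7 (by decide)
      -- all values are `castSucc`
      obtain ⟨g1, hg1⟩ : ∃ g1 : Fin (d + 1 + 1 + 1) → Fin (n + 1), g = fun i => (g1 i).castSucc := by
        have h8 : ∀ i, g i ≠ Fin.last (n + 1) := fun i => Fin.lastCases h5 h4 i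
        exact ⟨fun i => (g i).castPred (h8 i), funext fun i => (Fin.castSucc_castPred _ _).symm⟩
      have h6 : ∀ i : Fin (d + 1 + 1 + 1), i ≠ (Fin.last (d + 1)).castSucc → g1 i ≠ Fin.last n := by
        intro i hi hl
        apply h3 i (Finset.mem_univ _)
        rw [hg1]
        simp only
        rw [hl]
        revert hi hl
        refine Fin.lastCases (fun _ _ => ?_) (fun j => ?_) i
        · simp only [a, Fin.snoc_castSucc, Fin.snoc_last]
        · refine Fin.lastCases (fun hi _ => absurd rfl hi) (fun j' _ _ => ?_) j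
          simp only [a, Fin.snoc_castSucc, Fin.snoc_last]
      have h7 : g1 (Fin.last (d + 1)).castSucc ≠ Fin.last n := by
        intro hl
        have h6 : fib g (Fin.last n).castSucc = 1 := by
          unfold fib
          rw [Finset.card_eq_one]
          refine ⟨(Fin.last (d + 1)).castSucc, ?_⟩
          ext i
          simp only [Finset.mem_filter, Finset.mem_univ, true_and, Finset.mem_singleton]
          constructor
          · intro hi
            by_contra hne
            refine h6 i hne ?_
            rw [hg1] at hi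
            exact Fin.castSucc_injective _ hi
          · rintro rfl
            rw [hg1]
            simp only [hl]
        have h7 := hg (Fin.last n).castSucc
        rw [h6] at h7
        exact absurd h7 (by decide)
      obtain ⟨g2, hg2⟩ : ∃ g2 : Fin (d + 1 + 1 + 1) → Fin n, g1 = fun i => (g2 i).castSucc := by
        have h8 : ∀ i, g1 i ≠ Fin.last n := fun i => by
          by_cases hi : i = (Fin.last (d + 1)).castSucc
          · rw [hi]
            exact h7
          · exact h6 i hi
        exact ⟨fun i => (g1 i).castPred (h8 i), funext fun i => (Fin.castSucc_castPred _ _).symm⟩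
      have h8 : g2 (Fin.last _) = v1 := by
        have h9 := h3 (Fin.last _) (Finset.mem_univ _)
        rw [hg1, hg2] at h9
        simp only [a, Fin.snoc_last, Fin.snoc_castSucc] at h9
        by_contra hne
        rw [if_neg hne] at h9
        exact h9 rfl
      have h9 : g2 (Fin.last (d + 1)).castSucc = v0 := by
        have h9 := h3 (Fin.last (d + 1)).castSucc (Finset.mem_univ _)
        rw [hg1, hg2] at h9
        simp only [a, Fin.snoc_last, Fin.snoc_castSucc] at h9
        by_contra hne
        rw [if_neg hne] at h9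
        exact h9 rfl
      refine ⟨fun i => g2 i.castSucc.castSucc, ?_⟩
      rw [hg1, hg2]
      funext i
      simp only [E]
      congr 2
      refine Fin.lastCases ?_ (fun j => ?_) i
      · rw [Fin.snoc_last, h8]
      · rw [Fin.snoc_castSucc]
        refine Fin.lastCases ?_ (fun j' => ?_) j
        · rw [Fin.snoc_last, h9]
        · rw [Fin.snoc_castSucc]
    have hEinj : Function.Injective E := by
      intro h h' hhh
      funext i
      have := congrFun hhh i.castSucc.castSucc
      simp only [E, Fin.snoc_castSucc] at this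
      exact Fin.castSucc_injective _ (Fin.castSucc_injective _ this)
    have hEv : ∀ h, EvenFun (E h) ↔ EvenFun (Fin.snoc (α := fun _ => Fin n)
        (Fin.snoc (α := fun _ => Fin n) h v0) v1) := by
      intro h
      simp only [E]
      rw [evenFun_castSucc (g := fun i => ((Fin.snoc (α := fun _ => Fin n)
        (Fin.snoc (α := fun _ => Fin n) h v0) v1 : Fin (d + 1 + 1 + 1) → Fin n) i).castSucc),
        evenFun_castSucc]
    let S0 : Finset (Fin (d + 1) → Fin n) :=
      univ.filter fun h => EvenFun (Fin.snoc (α := fun _ => Fin n)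
        (Fin.snoc (α := fun _ => Fin n) h v0) v1)
    have e3 : ∑ g ∈ (univ : Finset (Fin (d + 1 + 1 + 1) → Fin (n + 1 + 1))).filter EvenFun,
        (∏ i, a i (g i)) * M (halfMon x'' g) ^ 2 =
        ∑ h ∈ S0, (∏ i, gen (d + 1) n i (h i)) *
          M (halfMon x (Fin.snoc (α := fun _ => Fin n)
            (Fin.snoc (α := fun _ => Fin n) h v0) v1)) ^ 2 := by
      symm
      have e4 : ∑ h ∈ S0, (∏ i, gen (d + 1) n i (h i)) *
          M (halfMon x (Fin.snoc (α := fun _ => Fin n)
            (Fin.snoc (α := fun _ => Fin n) h v0) v1)) ^ 2 =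
          ∑ g ∈ S0.image E, (∏ i, a i (g i)) * M (halfMon x'' g) ^ 2 := by
        rw [Finset.sum_image fun _ _ _ _ hh => hEinj hh]
        refine Finset.sum_congr rfl fun h _ => ?_
        congr 1
        · rw [Fin.prod_univ_castSucc (n := d + 1 + 1), Fin.prod_univ_castSucc (n := d + 1)]
          simp only [a, E, Fin.snoc_castSucc, Fin.snoc_last, if_true, mul_one]
        · congr 2
          simp only [E, x'']
          rw [halfMon_castSucc x' (x v1) (fun i => ((Fin.snoc (α := fun _ => Fin n)
            (Fin.snoc (α := fun _ => Fin n) h v0) v1 : Fin (d + 1 + 1 + 1) → Fin n) i).castSucc)]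
          simp only [x']
          rw [halfMon_castSucc]
      rw [e4]
      refine Finset.sum_subset ?_ ?_
      · intro g hg
        rw [Finset.mem_image] at hg
        obtain ⟨h, hh, rfl⟩ := hg
        rw [Finset.mem_filter]
        exact ⟨Finset.mem_univ _, (hEv h).mpr (Finset.mem_filter.mp hh).2⟩
      · intro g hg hgn
        by_contra hne
        rw [Finset.mem_filter] at hg
        obtain ⟨h, hh⟩ := e2 g hg.2 hne
        apply hgn
        rw [Finset.mem_image]
        refine ⟨h, ?_, hh.symm⟩
        rw [Finset.mem_filter]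
        refine ⟨Finset.mem_univ _, (hEv h).mp ?_⟩
        rw [← hh]
        exact hg.2
    rw [e3] at e1
    exact indep hind (fun i : Fin (d + 1) => i) (fun _ _ h => h) S0
      (fun h => M (halfMon x (Fin.snoc (α := fun _ => Fin n)
        (Fin.snoc (α := fun _ => Fin n) h v0) v1))) e1 h
      (Finset.mem_filter.mpr ⟨Finset.mem_univ _, hh⟩)
  · -- faces
    intro σ hσ
    have h3 : (univ.filter (fun i : Fin n => i.castSucc.castSucc ∈ σ)) ∉ L := by
      intro h4
      refine hσ (Finset.mem_filter.mpr ⟨Finset.mem_univ _, ?_⟩)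
      refine Finset.mem_filter.mpr ⟨Finset.mem_univ _, ?_⟩
      convert h4 using 1
      ext i
      simp
    have h4 := hface _ h3
    have h5 : (univ.filter (fun i : Fin n => i.castSucc.castSucc ∈ σ)).map
        (Fin.castSuccEmb.trans Fin.castSuccEmb) ⊆ σ := by
      intro w hw
      rw [Finset.mem_map] at hw
      obtain ⟨i, hi, rfl⟩ := hw
      exact (Finset.mem_filter.mp hi).2
    rw [← Finset.prod_sdiff h5, Finset.prod_map]
    have h6 : ∏ i ∈ univ.filter (fun i : Fin n => i.castSucc.castSucc ∈ σ),
        x'' ((Fin.castSuccEmb.trans Fin.castSuccEmb) i) = 0 := by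
      rw [← h4]
      refine Finset.prod_congr rfl fun i _ => ?_
      simp only [x'', x', Function.Embedding.trans_apply, Fin.castSuccEmb_apply, Fin.snoc_castSucc]
    rw [h6, mul_zero]
  · -- rows
    intro i
    refine Fin.lastCases ?_ (fun i => ?_) i
    · rw [Fin.sum_univ_castSucc, Fin.sum_univ_castSucc]
      simp only [a, x'', x', Fin.snoc_castSucc, Fin.snoc_last, ite_smul, one_smul, zero_smul,
        Finset.sum_ite_eq', Finset.mem_univ, if_true, add_zero]
      rw [← two_mul, h2, zero_mul]
    · refine Fin.lastCases ?_ (fun i => ?_) i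
      · rw [Fin.sum_univ_castSucc, Fin.sum_univ_castSucc]
        simp only [a, x'', x', Fin.snoc_castSucc, Fin.snoc_last, ite_smul, one_smul, zero_smul,
          Finset.sum_ite_eq', Finset.mem_univ, if_true, add_zero]
        rw [← two_mul, h2, zero_mul]
      · rw [Fin.sum_univ_castSucc, Fin.sum_univ_castSucc]
        simp only [a, x'', x', Fin.snoc_castSucc, Fin.snoc_last, zero_smul, add_zero]
        exact hrow i

end C

end Pool.Agent.H37.KR
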