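import Pool.Agent.H37.KR.T2
import Pool.Agent.H67.KR.StB
import Pool.Agent.H36.KR.L

/-!
# The Lefschetz type theorem with exceptional monomials
-/

set_option autoImplicit false

namespace Pool.Agent.H37.KR

open Finset MvPolynomial Pool.Agent.W555.KS Pool.Agent.Y131.KS Pool.Agent.W646.KS
open Pool.Agent.W500.KS (lin d0 d0_apply coeff_top_lin sum_sq_zero)
open Pool.Agent.W977.KS

theorem finish' {k : Type*} [Field k] {n : ℕ} {J K : Ideal (MvPolynomial (Fin n) k)} (hJ : HomI J)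
    (hJK : J ≤ K) {w : MvPolynomial (Fin n) k}
    (hw : w.IsHomogeneous 1) {q : ℕ}
    (F1 : ∀ p : MvPolynomial (Fin n) k, p.IsHomogeneous (1 + q) → p ∈ J ⊔ Ideal.span {w})
    (s : ℕ) (F2 : ∀ β : Fin n →₀ ℕ, β.degree = q → w ^ s * monomial β 1 ∈ K)
    (p : MvPolynomial (Fin n) k) (hp : p.IsHomogeneous (q + s)) : p ∈ K := by
  obtain ⟨y, hy, h1⟩ := step hJ hw F1 s p hp
  have h2 : w ^ s * y ∈ K :=
    mem_of_monomials (Submodule.comap (LinearMap.mulLeft k (w ^ s)) (K.restrictScalars k))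
      (fun β hβ => F2 β hβ) hy
  have h3 : p = (p - w ^ s * y) + w ^ s * y := by ring
  rw [h3]
  exact Ideal.add_mem _ (hJK h1) h2

section

variable {n d m : ℕ} {L : Finset (Finset (Fin n))} {b : Fin m → ℕ}
  {β α : Fin m → Finset (Fin n) → ZMod 2}

/-- the cochain of `Hyp` -/
def cc {n m : ℕ} (β α : Fin m → Finset (Fin n) → ZMod 2) (σ τ : Finset (Fin n)) : ZMod 2 :=
  ∑ j, β j σ * α j τ

theorem cc_ne (hH : Hyp L d b β α) {σ τ : Finset (Fin n)} (h : cc β α σ τ ≠ 0) :
    τ.card ≤ σ.card ∧ σ.card + τ.card = d + 1 := by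
  obtain ⟨j, -, hj⟩ := Finset.exists_ne_zero_of_sum_ne_zero h
  have h1 : σ.card = b j := by
    by_contra hc
    exact hj (by rw [(hH.2.1 j).1 σ hc, zero_mul])
  have h2 : τ.card = d + 1 - b j := by
    by_contra hc
    exact hj (by rw [(hH.2.2.1 j).1 τ hc, mul_zero])
  have h3 := hH.1 j
  omega

theorem cc_clo (hL : IsCx L) (hH : Hyp L d b β α) : Clo L (d + 1) (cc β α) := by
  classical
  intro σ hσ τ hτ hd hc
  unfold cc
  rw [Finset.sum_comm, Finset.sum_comm (s := τ), ← Finset.sum_add_distrib]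
  refine Finset.sum_eq_zero fun j _ => ?_
  have h3 := hH.1 j
  rw [← Finset.sum_mul, ← Finset.mul_sum]
  have h1 : (∑ v ∈ σ, β j (σ.erase v)) * α j τ = 0 := by
    by_cases h : σ.card = b j + 1
    · rw [(hH.2.1 j).2 σ hσ h, zero_mul]
    · by_cases h' : τ.card = d + 1 - b j
      · exact absurd (by omega) h
      · rw [(hH.2.2.1 j).1 τ h', mul_zero]
  have h2 : β j σ * (∑ v ∈ τ, α j (τ.erase v)) = 0 := by
    by_cases h : τ.card = (d + 1 - b j) + 1
    · rw [(hH.2.2.1 j).2 τ hτ h, mul_zero]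
    · by_cases h' : σ.card = b j
      · exact absurd (by omega) h
      · rw [(hH.2.1 j).1 σ h', zero_mul]
  rw [h1, h2, add_zero]

theorem card_pre_last {n : ℕ} {σ : Finset (Fin (n + 1))} (h : Fin.last n ∈ σ) :
    (univ.filter (fun i : Fin n => i.castSucc ∈ σ)).card + 1 = σ.card := by
  classical
  have h1 : σ = insert (Fin.last n)
      ((univ.filter (fun i : Fin n => i.castSucc ∈ σ)).map Fin.castSuccEmb) := by
    ext i
    refine Fin.lastCases ?_ (fun j => ?_) i
    · simp [h]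
    · simp [Fin.castSucc_ne_last]
  have h2 := congrArg Finset.card h1
  rw [card_insert_of_notMem (by simp [Fin.castSucc_ne_last]), card_map] at h2
  omega

theorem card_pre_nlast {n : ℕ} {σ : Finset (Fin (n + 1))} (h : Fin.last n ∉ σ) :
    (univ.filter (fun i : Fin n => i.castSucc ∈ σ)).card = σ.card := by
  classical
  have h1 : σ = (univ.filter (fun i : Fin n => i.castSucc ∈ σ)).map Fin.castSuccEmb := by
    ext i
    refine Fin.lastCases ?_ (fun j => ?_) i
    · simp [h, Fin.castSucc_ne_last]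
    · simp
  have h2 := congrArg Finset.card h1
  rw [card_map] at h2
  omega

theorem disj_pre {n : ℕ} {σ τ : Finset (Fin (n + 1))} (h : Disjoint σ τ) :
    Disjoint (univ.filter (fun i : Fin n => i.castSucc ∈ σ))
      (univ.filter (fun i : Fin n => i.castSucc ∈ τ)) := by
  rw [Finset.disjoint_left]
  intro i hi hi'
  rw [mem_filter] at hi hi'
  exact (Finset.disjoint_left.1 h) hi.2 hi'.2

/-- nonzero values of the cone cochain: the first set is larger by at least `e + 1` -/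
theorem cn_ne {n : ℕ} {c : Finset (Fin n) → Finset (Fin n) → ZMod 2} {e : ℕ}
    (hc : ∀ σ τ, Disjoint σ τ → c σ τ ≠ 0 → τ.card + e ≤ σ.card)
    (σ τ : Finset (Fin (n + 1))) (hd : Disjoint σ τ) (h : cn c σ τ ≠ 0) :
    τ.card + (e + 1) ≤ σ.card := by
  unfold cn at h
  split_ifs at h with hl
  · have h1 := hc _ _ (disj_pre hd) h
    have h2 := card_pre_last hl
    have h3 := card_pre_nlast (Finset.disjoint_left.1 hd hl)
    omega
  · exact absurd rfl h

/-- the degree `q + 1` part vanishes modulo all forms, `q = (d + 1) / 2` -/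
theorem t2c' (hexp : StExp) (halg : StAlg) (hind : StInd) (hB : StB) (hL : IsCx L)
    (hH : Hyp L d b β α) (q : ℕ) (hq : d = 2 * q ∨ d + 1 = 2 * q)
    (p : MvPolynomial (Fin n) (Kf (d + 1) n)) (hp : p.IsHomogeneous (1 + q)) :
    p ∈ srI (Kf (d + 1) n) L ⊔
      Ideal.span (Set.range (fun i : Fin (d + 1) => lf (gen (d + 1) n i))) := by
  classical
  set k := Kf (d + 1) n with hk
  set I : Ideal (MvPolynomial (Fin n) k) := srI k L ⊔
      Ideal.span (Set.range (fun i : Fin (d + 1) => lf (gen (d + 1) n i))) with hI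
  let x : Fin n → (MvPolynomial (Fin n) k ⧸ I) := fun v => Ideal.Quotient.mk I (X v)
  have hface : ∀ σ, σ ∉ L → ∏ v ∈ σ, x v = 0 := by
    intro σ hσ
    simp only [x]
    rw [← map_prod, Ideal.Quotient.eq_zero_iff_mem, hI]
    exact Ideal.mem_sup_left (Ideal.subset_span ⟨σ, hσ, rfl⟩)
  have hrow : ∀ i : Fin (d + 1), ∑ v, gen (d + 1) n i v • x v = 0 := by
    intro i
    have h1 : lf (gen (d + 1) n i) ∈ I := by
      rw [hI]
      exact Ideal.mem_sup_right (Ideal.subset_span ⟨i, rfl⟩)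
    exact (mk_lf I _).trans (Ideal.Quotient.eq_zero_iff_mem.2 h1)
  have hTr : TrV L (d + 1) (cc β α) := hH.2.2.2
  have hClo := cc_clo hL hH
  have hc0 : ∀ σ τ, Disjoint σ τ → cc β α σ τ ≠ 0 → τ.card + 0 ≤ σ.card :=
    fun σ τ _ h => (cc_ne hH h).1
  obtain ⟨hT1, hC1⟩ := hB n (d + 1) L (cc β α) hL hTr hClo
  have hL1 : IsCx (coneCx L) := isCx_cone hL
  obtain ⟨hT2, hC2⟩ := hB (n + 1) (d + 1 + 1) (coneCx L) (cn (cc β α)) hL1 hT1 hC1
  refine mem_of_monomials (I.restrictScalars _) ?_ hp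
  intro γ hγ
  have hγ' : ∑ v, γ v = q + 1 := by
    rw [← Finsupp.degree_eq_sum, hγ, add_comm]
  change monomial γ 1 ∈ I
  rw [← Ideal.Quotient.eq_zero_iff_mem, ← Module.forall_dual_apply_eq_zero_iff k]
  intro M
  rcases hq with hq | hq
  · obtain ⟨h, hf⟩ := exists_fib (m := d + 1 + 1) (q := q + 1) (by omega) (fun v => γ v) hγ'
    have hev : EvenFun h := fun v => by rw [hf]; exact even_two_mul _
    have hs : (Fin.snoc (α := fun _ => Fin n) (fun i : Fin (d + 1) => h i.castSucc)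
        (h (Fin.last _))) = h := by
      funext i
      refine Fin.lastCases ?_ (fun j => ?_) i
      · rw [Fin.snoc_last]
      · rw [Fin.snoc_castSucc]
    have key := key1 hexp halg hind (q + 1) (by omega) L hT1 (by
        intro σ τ hd h1 h2
        by_contra hne
        have := cn_ne hc0 σ τ hd hne
        omega) x hface hrow M (h (Fin.last _)) (fun i : Fin (d + 1) => h i.castSucc)
        (by rw [hs]; exact hev)
    rw [hs, mk_mon I h γ hf] at key
    exact key
  · obtain ⟨h, hf⟩ := exists_fib (m := d + 1 + 1 + 1) (q := q + 1) (by omega) (fun v => γ v) hγ'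
    have hev : EvenFun h := fun v => by rw [hf]; exact even_two_mul _
    have hs : (Fin.snoc (α := fun _ => Fin n) (Fin.snoc (α := fun _ => Fin n)
        (fun i : Fin (d + 1) => h i.castSucc.castSucc) (h (Fin.last (d + 1)).castSucc))
        (h (Fin.last _))) = h := by
      funext i
      refine Fin.lastCases ?_ (fun j => ?_) i
      · rw [Fin.snoc_last]
      · rw [Fin.snoc_castSucc]
        refine Fin.lastCases ?_ (fun j' => ?_) j
        · rw [Fin.snoc_last]
        · rw [Fin.snoc_castSucc]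
    have key := key2 hexp halg hind (q + 1) (by omega) L hT2 (by
        intro σ τ hd h1 h2
        by_contra hne
        have := cn_ne (cn_ne hc0) σ τ hd hne
        omega) x hface hrow M (h (Fin.last (d + 1)).castSucc) (h (Fin.last _))
        (fun i : Fin (d + 1) => h i.castSucc.castSucc) (by rw [hs]; exact hev)
    rw [hs, mk_mon I h γ hf] at key
    exact key

/-! ### the exceptional elements -/

/-- the index type of the exceptional elements -/
abbrev Ix (d : ℕ) {m : ℕ} (b : Fin m → ℕ) (r : ℕ) : Type :=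
  ({j : Fin m // b j = r} ⊕ {j : Fin m // d + 1 - b j = r}) × {I : Finset (Fin d) // I.card = r}

theorem card_Ix (b : Fin m → ℕ) (r : ℕ) :
    Fintype.card (Ix d b r) = Nat.choose d r * nf d b r := by
  rw [Fintype.card_prod, Fintype.card_sum, Fintype.card_subtype, Fintype.card_subtype,
    Fintype.card_finset_len, Fintype.card_fin, mul_comm]
  rfl

/-- the cochain of an index -/
def gm (β α : Fin m → Finset (Fin n) → ZMod 2) {r : ℕ}
    (i : {j : Fin m // b j = r} ⊕ {j : Fin m // d + 1 - b j = r}) : Finset (Fin n) → ZMod 2 :=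
  Sum.elim (fun j => β j.1) (fun j => α j.1) i

/-- the indicator of `I`, without the last element -/
noncomputable def mI (I : Finset (Fin d)) : Fin (d + 1) →₀ ℕ :=
  ∑ i ∈ I, Finsupp.single i.castSucc 1

/-- the exceptional element -/
noncomputable def zp (d : ℕ) (γ : Finset (Fin n) → ZMod 2) (r : ℕ) (μ : Fin (d + 1) →₀ ℕ) :
    MvPolynomial (Fin n) (Kf (d + 1) n) :=
  ∑ σ ∈ powersetCard r (univ : Finset (Fin n)),
    C (κ (Kf (d + 1) n) (γ σ) * coeff μ (∏ v ∈ σ, lin (gen (d + 1) n) v)) * ∏ v ∈ σ, X v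

theorem zp_hom (γ : Finset (Fin n) → ZMod 2) (r : ℕ) (μ : Fin (d + 1) →₀ ℕ) :
    (zp d γ r μ).IsHomogeneous r := by
  unfold zp
  refine IsHomogeneous.sum _ _ _ fun σ hσ => ?_
  rw [mem_powersetCard] at hσ
  have h1 : (∏ v ∈ σ, (X v : MvPolynomial (Fin n) (Kf (d + 1) n))).IsHomogeneous r := by
    have := IsHomogeneous.prod σ (fun v => (X v : MvPolynomial (Fin n) (Kf (d + 1) n)))
      (fun _ => 1) fun v _ => isHomogeneous_X _ v
    rwa [Finset.sum_const, smul_eq_mul, mul_one, hσ.2] at this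
  have := (isHomogeneous_C (Fin n)
    (κ (Kf (d + 1) n) (γ σ) * coeff μ (∏ v ∈ σ, lin (gen (d + 1) n) v))).mul h1
  rwa [zero_add] at this

theorem mI_of {μ : Fin (d + 1) →₀ ℕ} (h1 : ∀ i, μ i ≤ 1) (h2 : μ (Fin.last d) = 0) :
    μ = mI (univ.filter (fun i : Fin d => μ i.castSucc = 1)) ∧
      μ.degree = (univ.filter (fun i : Fin d => μ i.castSucc = 1)).card := by
  classical
  have h3 : μ = mI (univ.filter (fun i : Fin d => μ i.castSucc = 1)) := by
    ext i
    unfold mI
    rw [Finsupp.finset_sum_apply]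
    refine Fin.lastCases ?_ (fun j => ?_) i
    · rw [h2]
      symm
      refine Finset.sum_eq_zero fun i _ => ?_
      rw [Finsupp.single_apply, if_neg (Fin.castSucc_ne_last i)]
    · simp only [Finsupp.single_apply]
      have h4 : ∀ i : Fin d, (if i.castSucc = j.castSucc then 1 else 0) = if i = j then 1 else 0 := by
        intro i
        simp only [Fin.castSucc_inj]
      simp only [h4, Finset.sum_ite_eq', mem_filter, mem_univ, true_and]
      have := h1 j.castSucc
      split_ifs with h5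
      · exact h5
      · omega
  refine ⟨h3, ?_⟩
  conv_lhs => rw [h3]
  unfold mI
  rw [map_sum]
  simp

theorem coeff_ne_deg {σ : Finset (Fin n)} {μ : Fin (d + 1) →₀ ℕ}
    (h : coeff μ (∏ v ∈ σ, lin (gen (d + 1) n) v) ≠ 0) : μ.degree = σ.card := by
  have h1 : (∏ v ∈ σ, lin (gen (d + 1) n) v).IsHomogeneous σ.card := by
    have := IsHomogeneous.prod σ (fun v => lin (gen (d + 1) n) v) (fun _ => 1) fun v _ => by
      unfold lin
      refine IsHomogeneous.sum _ _ _ fun i _ => ?_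
      have := (isHomogeneous_C (Fin (d + 1)) (gen (d + 1) n i v)).mul (isHomogeneous_X _ i)
      rwa [zero_add] at this
    rwa [Finset.sum_const, smul_eq_mul, mul_one] at this
  have h2 := h1 h
  rw [Finsupp.degree_eq_weight_one]
  exact h2

/-- the pattern sum vanishes for functionals on the quotient -/
theorem pat_quot (hexp : StExp) (hH : Hyp L d b β α) (r : ℕ) (hr : d < 2 * r)
    (I : Ideal (MvPolynomial (Fin n) (Kf (d + 1) n))) (hJI : Jd n d L ≤ I)
    (hw : wl n d ^ (2 * r - d) ∈ I)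
    (hz : ∀ i : Ix d b r, zp d (gm (n := n) β α i.1) r (mI i.2.1) ∈ I)
    (M : (MvPolynomial (Fin n) (Kf (d + 1) n) ⧸ I) →ₗ[Kf (d + 1) n] Kf (d + 1) n) :
    ∑ U ∈ powersetCard (d + 1) univ,
      bra (gen (d + 1) n) U * M ((Ideal.Quotient.mk I (wl n d)) ^ (r - (evenPart U).card) *
        ∏ v ∈ evenPart U, Ideal.Quotient.mk I (X v)) *
        M ((Ideal.Quotient.mk I (wl n d)) ^ (r - (oddPart U).card) *
        ∏ v ∈ oddPart U, Ideal.Quotient.mk I (X v)) = 0 := by
  classical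
  refine pat_zero hexp hH r hr (gen (d + 1) n) (fun v => Ideal.Quotient.mk I (X v)) M
    (Ideal.Quotient.mk I (wl n d)) (rel_L I hJI) (rel_lf I hJI) (mk_lf I _).symm ?_ ?_
  · rw [← map_pow, Ideal.Quotient.eq_zero_iff_mem]
    exact hw
  · intro γ hγ μ h1 h2
    have h3 : (∑ σ ∈ powersetCard r (univ : Finset (Fin n)),
        (κ (Kf (d + 1) n) (γ σ) * coeff μ (∏ v ∈ σ, lin (gen (d + 1) n) v)) •
          ∏ v ∈ σ, Ideal.Quotient.mk I (X v)) = Ideal.Quotient.mk I (zp d γ r μ) := by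
      unfold zp
      rw [map_sum]
      refine Finset.sum_congr rfl fun σ _ => ?_
      rw [← map_prod]
      have h9 : (κ (Kf (d + 1) n) (γ σ) * coeff μ (∏ v ∈ σ, lin (gen (d + 1) n) v)) •
          Ideal.Quotient.mk I (∏ v ∈ σ, X v) = Ideal.Quotient.mk I
            ((κ (Kf (d + 1) n) (γ σ) * coeff μ (∏ v ∈ σ, lin (gen (d + 1) n) v)) •
              ∏ v ∈ σ, (X v : MvPolynomial (Fin n) (Kf (d + 1) n))) := rfl
      rw [h9, smul_eq_C_mul]
    rw [h3]
    obtain ⟨hμ, hdeg⟩ := mI_of h1 h2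
    by_cases hc : μ.degree = r
    · have h4 : zp d γ r μ ∈ I := by
        rw [hμ]
        rcases hγ with ⟨j, hj, rfl⟩ | ⟨j, hj, rfl⟩
        · exact hz ⟨Sum.inl ⟨j, hj⟩, ⟨_, hdeg.symm.trans hc⟩⟩
        · exact hz ⟨Sum.inr ⟨j, hj⟩, ⟨_, hdeg.symm.trans hc⟩⟩
      rw [Ideal.Quotient.eq_zero_iff_mem.2 h4, map_zero]
    · have h4 : zp d γ r μ = 0 := by
        unfold zp
        refine Finset.sum_eq_zero fun σ hσ => ?_
        rw [mem_powersetCard] at hσ
        have h5 : coeff μ (∏ v ∈ σ, lin (gen (d + 1) n) v) = 0 := by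
          by_contra hne
          exact hc ((coeff_ne_deg hne).trans hσ.2)
        rw [h5, mul_zero, map_zero, zero_mul]
      rw [h4, map_zero, map_zero]

theorem pointE' (hexp : StExp) (halg : StAlg) (hind : StInd) (hH : Hyp L d b β α) {q : ℕ} (s : ℕ)
    (hq : d + 1 = 2 * q) (I : Ideal (MvPolynomial (Fin n) (Kf (d + 1) n))) (hJI : Jd n d L ≤ I)
    (hw : wl n d ^ (2 * (q + s) - d) ∈ I)
    (hz : ∀ i : Ix d b (q + s), zp d (gm (n := n) β α i.1) (q + s) (mI i.2.1) ∈ I)
    (γ : Fin n →₀ ℕ) (hγ : γ.degree = q) : wl n d ^ s * monomial γ 1 ∈ I := by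
  obtain ⟨h, hf⟩ := exists_fib (m := d + 1) hq (fun v => γ v)
    (by rw [← hγ, Finsupp.degree_eq_sum])
  have hev : EvenFun h := fun v => by rw [hf]; exact even_two_mul _
  rw [← Ideal.Quotient.eq_zero_iff_mem, ← Module.forall_dual_apply_eq_zero_iff (Kf (d + 1) n)]
  intro M
  have key := t1e_dir halg q s (gen (d + 1) n) (fun v => Ideal.Quotient.mk I (X v)) M
    (Ideal.Quotient.mk I (wl n d)) (rel_lf I hJI) hq
    (pat_quot hexp hH (q + s) (by omega) I hJI hw hz M)
  have h2 := indep hind (fun i : Fin (d + 1) => i) (fun _ _ h => h) _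
    (fun h => M (Ideal.Quotient.mk I (wl n d) ^ s *
      halfMon (fun v => Ideal.Quotient.mk I (X v)) h)) key h (by simpa using hev)
  rw [map_mul, map_pow, ← mk_mon I h γ hf]
  exact h2

theorem pointO' (hexp : StExp) (halgo : StAlgO) (hind : StInd) {q : ℕ} {L : Finset (Finset (Fin n))}
    (hH : Hyp L (2 * q) b β α) (s : ℕ) (hs : 1 ≤ s)
    (I : Ideal (MvPolynomial (Fin n) (Kf (2 * q + 1) n))) (hJI : Jd n (2 * q) L ≤ I)
    (hw : wl n (2 * q) ^ (2 * (q + s) - 2 * q) ∈ I)
    (hz : ∀ i : Ix (2 * q) b (q + s), zp (2 * q) (gm (n := n) β α i.1) (q + s) (mI i.2.1) ∈ I)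
    (γ : Fin n →₀ ℕ) (hγ : γ.degree = q) : wl n (2 * q) ^ s * monomial γ 1 ∈ I := by
  obtain ⟨h, hf⟩ := exists_fib (m := 2 * q) rfl (fun v => γ v)
    (by rw [← hγ, Finsupp.degree_eq_sum])
  have hev : EvenFun h := fun v => by rw [hf]; exact even_two_mul _
  rw [← Ideal.Quotient.eq_zero_iff_mem, ← Module.forall_dual_apply_eq_zero_iff (Kf (2 * q + 1) n)]
  intro M
  have key := t1o_dir halgo q s hs (gen (2 * q + 1) n) (fun v => Ideal.Quotient.mk I (X v)) M
    (Ideal.Quotient.mk I (wl n (2 * q))) (rel_lf I hJI) (mk_lf I _).symm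
    (pat_quot hexp hH (q + s) (by omega) I hJI hw hz M)
  have h2 := indep hind (fun i : Fin (2 * q) => i.castSucc) (Fin.castSucc_injective _) _
    (fun h => M (Ideal.Quotient.mk I (wl n (2 * q)) ^ s *
      halfMon (fun v => Ideal.Quotient.mk I (X v)) h)) key h (by simpa using hev)
  rw [map_mul, map_pow, ← mk_mon I h γ hf]
  exact h2

end

theorem t2r (hexp : StExp) (halg : StAlg) (halgo : StAlgO) (hind : StInd) (hB : StB)
    (n d m : ℕ) (L : Finset (Finset (Fin n))) (b : Fin m → ℕ)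
    (β α : Fin m → Finset (Fin n) → ZMod 2) (hL : IsCx L) (hH : Hyp L d b β α) (r : ℕ)
    (hr : d < 2 * r) (p : MvPolynomial (Fin n) (Kf (d + 1) n)) (hp : p.IsHomogeneous r) :
    p ∈ (Jd n d L ⊔ Ideal.span {wl n d ^ (2 * r - d)}) ⊔
      Ideal.span (Set.range fun i : Ix d b r => zp d (gm (n := n) β α i.1) r (mI i.2.1)) := by
  have hJ : HomI (Jd n d L) := homI_J L _
  have hw : (wl n d).IsHomogeneous 1 := lf_hom _
  set K := (Jd n d L ⊔ Ideal.span {wl n d ^ (2 * r - d)}) ⊔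
      Ideal.span (Set.range fun i : Ix d b r => zp d (gm (n := n) β α i.1) r (mI i.2.1)) with hK
  have hJK : Jd n d L ≤ K := le_sup_left.trans le_sup_left
  have hwK : wl n d ^ (2 * r - d) ∈ K :=
    Ideal.mem_sup_left (Ideal.mem_sup_right (Ideal.subset_span rfl))
  have hzK : ∀ i : Ix d b r, zp d (gm (n := n) β α i.1) r (mI i.2.1) ∈ K := fun i =>
    Ideal.mem_sup_right (Ideal.subset_span ⟨i, rfl⟩)
  obtain ⟨q, hq⟩ : ∃ q, d = 2 * q ∨ d + 1 = 2 * q := by
    rcases Nat.even_or_odd' d with ⟨q, hq | hq⟩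
    · exact ⟨q, Or.inl hq⟩
    · exact ⟨q + 1, Or.inr (by omega)⟩
  have hF1 : ∀ p : MvPolynomial (Fin n) (Kf (d + 1) n), p.IsHomogeneous (1 + q) →
      p ∈ Jd n d L ⊔ Ideal.span {wl n d} := by
    intro p' hp'
    have h1 := t2c' hexp halg hind hB hL hH q hq p' hp'
    have h2 : Ideal.span (Set.range (fun i : Fin (d + 1) => lf (gen (d + 1) n i)))
        ≤ Ideal.span (Set.range (fun i : Fin d => lf (gen (d + 1) n i.castSucc)))
          ⊔ Ideal.span {wl n d} := by
      rw [Ideal.span_le]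
      rintro _ ⟨i, rfl⟩
      induction i using Fin.lastCases with
      | last => exact Ideal.mem_sup_right (Ideal.subset_span rfl)
      | cast i => exact Ideal.mem_sup_left (Ideal.subset_span ⟨i, rfl⟩)
    have h3 := (sup_le_sup_left h2 (srI (Kf (d + 1) n) L)) h1
    rwa [← sup_assoc] at h3
  rcases hq with hq | hq
  · subst hq
    obtain ⟨s, hs, rfl⟩ : ∃ s, 1 ≤ s ∧ r = q + s := ⟨r - q, by omega, by omega⟩
    exact finish' hJ hJK hw hF1 s
      (fun γ hγ => pointO' hexp halgo hind hH s hs K hJK hwK hzK γ hγ) p hp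
  · obtain ⟨s, rfl⟩ : ∃ s, r = q + s := ⟨r - q, by omega⟩
    exact finish' hJ hJK hw hF1 s
      (fun γ hγ => pointE' hexp halg hind hH s hq K hJK hwK hzK γ hγ) p hp

theorem stT2J : StT2J := by
  intro n d m L b β α hL hH r hr
  have halg : StAlg := halg'
  have halgo : StAlgO := Pool.Agent.W655.KS.algo halg'
  have hI : HomI (Jd n d L ⊔ Ideal.span {wl n d ^ (2 * r - d)}) := by
    have h1 : Jd n d L ⊔ Ideal.span {wl n d ^ (2 * r - d)} =
        Ideal.span (({p | ∃ σ : Finset (Fin n), σ ∉ L ∧ p = ∏ v ∈ σ, X v} ∪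
          Set.range (fun i : Fin d => lf (gen (d + 1) n i.castSucc))) ∪
            {wl n d ^ (2 * r - d)}) := by
      rw [Ideal.span_union, Ideal.span_union]
      rfl
    rw [h1]
    refine homI_span _ ?_
    rintro x ((⟨σ, -, rfl⟩ | ⟨i, rfl⟩) | rfl)
    · exact ⟨∑ v ∈ σ, 1, IsHomogeneous.prod _ _ _ fun v _ => isHomogeneous_X _ v⟩
    · exact ⟨1, lf_hom _⟩
    · exact ⟨_, (lf_hom _).pow _⟩
  obtain ⟨J, h1, h2, h3⟩ := Pool.Agent.H36.KR.stLin (Kf (d + 1) n) n r (Ix d b r)
    (Jd n d L ⊔ Ideal.span {wl n d ^ (2 * r - d)})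
    (fun i => zp d (gm (n := n) β α i.1) r (mI i.2.1)) hI (fun i => zp_hom _ _ _)
    (fun p hp => t2r Pool.Agent.W837.KS.exp halg halgo Pool.Agent.W646.KS.ind
      Pool.Agent.H67.KR.stB n d m L b β α hL hH r hr p hp)
  refine ⟨J, h1, ?_, h3⟩
  rwa [card_Ix] at h2

end Pool.Agent.H37.KR
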